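import Pool.Agent.Helper74.Bez.Count

/-!
# Elementary bigraded Bezout inequality with several groups of equations

Variables `s1 ⊕ s2`; the equation `f i` has bidegree at most `(a (grp i), b (grp i))`.  The number
of common zeros at which the Jacobian matrix is surjective is bounded by
`∏_g (q_g)! / (n1! n2!) * (∑ a_g α_g)^n1 (∑ b_g α_g)^n2 / ∏ α_g^(q_g)` for all choices of the
weights `α_g` (`q_g` = number of equations of the group `g`).
-/

set_option autoImplicit false

namespace Pool.Agent.Helper40.FD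

open MvPolynomial Finset Bez

variable {K : Type*} [Field K] {s1 s2 : Type*} [Fintype s1] [Fintype s2] [DecidableEq s1]
  [DecidableEq s2] {G : Type*} [Fintype G] [DecidableEq G] {t : G → Type*}
  [∀ g, Fintype (t g)] [∀ g, DecidableEq (t g)]

/-- exponents with total degree at most `A g` in the group `g` -/
noncomputable def gfin (t : G → Type*) [∀ g, Fintype (t g)] [∀ g, DecidableEq (t g)]
    (A : G → ℕ) : Finset ((Σ g, t g) →₀ ℕ) :=
  (Fintype.piFinset fun g => bal (t g) (A g)).map
    (Finsupp.sigmaFinsuppEquivPiFinsupp (α := ℕ) (ιs := t)).symm.toEmbedding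

theorem mem_gfin {A : G → ℕ} {c : (Σ g, t g) →₀ ℕ} :
    c ∈ gfin t A ↔ ∀ g, ∑ i : t g, c ⟨g, i⟩ ≤ A g := by
  unfold gfin
  rw [Finset.mem_map_equiv, Fintype.mem_piFinset]
  refine forall_congr' fun g => ?_
  rw [mem_bal]
  rfl

theorem card_gfin (A : G → ℕ) : (gfin t A).card =
    ∏ g, (Fintype.card (t g) + A g).choose (Fintype.card (t g)) := by
  unfold gfin
  rw [card_map, Fintype.card_piFinset]
  exact Finset.prod_congr rfl fun g _ => card_bal _ _

variable {ι : Type*} [Fintype ι] [DecidableEq ι]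

theorem bezS_AB [Infinite K] (a b : G → ℕ) (f : (Σ g, t g) → MvPolynomial (s1 ⊕ s2) K)
    (p : ι → s1 ⊕ s2 → K) (hp : Function.Injective p) (hf : ∀ k i, eval (p k) (f i) = 0)
    (hJ : ∀ k, Function.Surjective (jac f (p k)))
    (hd : ∀ i, f i ∈ Wb K s1 s2 (a i.1) (b i.1)) (A : G → ℕ) :
    Fintype.card ι * (∏ g, (Fintype.card (t g) + A g).choose (Fintype.card (t g))) ≤
    (Fintype.card s1 + (∑ g, a g * A g + Fintype.card ι)).choose (Fintype.card s1) *
      (Fintype.card s2 + (∑ g, b g * A g + Fintype.card ι)).choose (Fintype.card s2) := by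
  obtain ⟨g, hg1, hg2⟩ := exists_interp p hp
  obtain ⟨hfin, hrank⟩ := Wb_basis (K := K) (s1 := s1) (s2 := s2)
    (∑ g, a g * A g + Fintype.card ι) (∑ g, b g * A g + Fintype.card ι)
  have := hfin
  rw [← hrank, ← card_gfin]
  refine card_le f p hf hJ g hg1 (gfin t A) _ ?_
  intro k c hc
  rw [mem_gfin] at hc
  have e1 := Wb_prod (K := K) (s1 := s1) (s2 := s2) (univ : Finset (Σ g, t g))
    (d1 := fun i => c i * a i.1) (d2 := fun i => c i * b i.1)
    (f := fun i => f i ^ c i) fun i _ => Wb_pow (hd i) _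
  refine Wb_mono ?_ ?_ (Wb_mul (hg2 k) e1)
  · rw [Fintype.sum_sigma, add_comm]
    refine Nat.add_le_add_right (Finset.sum_le_sum fun g _ => ?_) _
    dsimp only
    rw [← Finset.sum_mul, mul_comm]
    exact Nat.mul_le_mul_left _ (hc g)
  · rw [Fintype.sum_sigma, add_comm]
    refine Nat.add_le_add_right (Finset.sum_le_sum fun g _ => ?_) _
    dsimp only
    rw [← Finset.sum_mul, mul_comm]
    exact Nat.mul_le_mul_left _ (hc g)

theorem bezS [Infinite K] (a b : G → ℕ) (f : (Σ g, t g) → MvPolynomial (s1 ⊕ s2) K)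
    (p : ι → s1 ⊕ s2 → K) (hp : Function.Injective p) (hf : ∀ k i, eval (p k) (f i) = 0)
    (hJ : ∀ k, Function.Surjective (jac f (p k)))
    (hd : ∀ i, f i ∈ Wb K s1 s2 (a i.1) (b i.1))
    (hc : ∑ g, Fintype.card (t g) = Fintype.card s1 + Fintype.card s2) (α : G → ℕ) :
    Fintype.card ι * (∏ g, α g ^ Fintype.card (t g)) *
        ((Fintype.card s1).factorial * (Fintype.card s2).factorial) ≤
      (∏ g, (Fintype.card (t g)).factorial) *
        ((∑ g, a g * α g) ^ Fintype.card s1 * (∑ g, b g * α g) ^ Fintype.card s2) := by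
  set S := Fintype.card ι with hS
  set n1 := Fintype.card s1 with hn1
  set n2 := Fintype.card s2 with hn2
  set q : G → ℕ := fun g => Fintype.card (t g) with hq
  set x : ℕ := ∑ g, a g * α g with hx
  set y : ℕ := ∑ g, b g * α g with hy
  have hT : ∀ T : ℕ, 1 ≤ T → (S : ℝ) * (∏ g, (α g : ℝ) ^ q g) * ((n1.factorial : ℝ) * n2.factorial) ≤
      (∏ g, ((q g).factorial : ℝ)) *
      (((x : ℝ) + (n1 + S : ℕ) / T) ^ n1 * ((y : ℝ) + (n2 + S : ℕ) / T) ^ n2) := by
    intro T hT1
    have hTp : (0 : ℝ) < T := by exact_mod_cast hT1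
    have h := bezS_AB a b f p hp hf hJ hd (fun g => α g * T)
    have ex : ∑ g, a g * (α g * T) = x * T := by
      rw [hx, Finset.sum_mul]
      exact Finset.sum_congr rfl fun g _ => by ring
    have ey : ∑ g, b g * (α g * T) = y * T := by
      rw [hy, Finset.sum_mul]
      exact Finset.sum_congr rfl fun g _ => by ring
    rw [ex, ey] at h
    have h' : (S : ℝ) * (∏ g, ((q g + α g * T).choose (q g) : ℝ)) ≤
        ((n1 + (x * T + S)).choose n1 : ℝ) * ((n2 + (y * T + S)).choose n2 : ℝ) := by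
      exact_mod_cast h
    have l1 : ∀ g, (α g : ℝ) ^ q g * (T : ℝ) ^ q g ≤
        ((q g).factorial : ℝ) * ((q g + α g * T).choose (q g) : ℝ) := by
      intro g
      have h3 := Nat.pow_le_choose (α := ℝ) (q g) (q g + α g * T)
      rw [div_le_iff₀ (by positivity), show q g + α g * T + 1 - q g = α g * T + 1 by omega] at h3
      have h4 : ((α g : ℝ) * T) ^ q g ≤ ((α g * T + 1 : ℕ) : ℝ) ^ q g := by
        gcongr
        push_cast
        linarith
      rw [← mul_pow]
      linarith
    have u1 : ∀ n z : ℕ, (n.factorial : ℝ) * ((n + (z * T + S)).choose n : ℝ) ≤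
        ((z : ℝ) + (n + S : ℕ) / T) ^ n * (T : ℝ) ^ n := by
      intro n z
      have := Nat.choose_le_pow_div (α := ℝ) n (n + (z * T + S))
      rw [le_div_iff₀ (by positivity)] at this
      rw [← mul_pow, add_mul, div_mul_cancel₀ _ hTp.ne']
      rw [mul_comm]
      refine this.trans (le_of_eq ?_)
      push_cast
      ring
    have l2 : (∏ g, (α g : ℝ) ^ q g) * (∏ g, (T : ℝ) ^ q g) ≤
        (∏ g, ((q g).factorial : ℝ)) * (∏ g, ((q g + α g * T).choose (q g) : ℝ)) := by
      rw [← Finset.prod_mul_distrib, ← Finset.prod_mul_distrib]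
      exact Finset.prod_le_prod (fun g _ => by positivity) fun g _ => l1 g
    have hTT : (∏ g, (T : ℝ) ^ q g) = (T : ℝ) ^ n1 * (T : ℝ) ^ n2 := by
      rw [Finset.prod_pow_eq_pow_sum, hc, pow_add]
    rw [hTT] at l2
    have hpos : (0 : ℝ) < (T : ℝ) ^ n1 * (T : ℝ) ^ n2 := by positivity
    refine le_of_mul_le_mul_right ?_ hpos
    calc (S : ℝ) * (∏ g, (α g : ℝ) ^ q g) * ((n1.factorial : ℝ) * n2.factorial) *
          ((T : ℝ) ^ n1 * (T : ℝ) ^ n2)
        = (S : ℝ) * ((∏ g, (α g : ℝ) ^ q g) * ((T : ℝ) ^ n1 * (T : ℝ) ^ n2)) *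
          ((n1.factorial : ℝ) * n2.factorial) := by ring
      _ ≤ (S : ℝ) * ((∏ g, ((q g).factorial : ℝ)) *
          (∏ g, ((q g + α g * T).choose (q g) : ℝ))) *
          ((n1.factorial : ℝ) * n2.factorial) := by gcongr
      _ = (∏ g, ((q g).factorial : ℝ)) * ((n1.factorial : ℝ) * n2.factorial) *
          ((S : ℝ) * (∏ g, ((q g + α g * T).choose (q g) : ℝ))) := by ring
      _ ≤ (∏ g, ((q g).factorial : ℝ)) * ((n1.factorial : ℝ) * n2.factorial) *
          (((n1 + (x * T + S)).choose n1 : ℝ) * ((n2 + (y * T + S)).choose n2 : ℝ)) := by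
        gcongr
      _ = (∏ g, ((q g).factorial : ℝ)) *
          (((n1.factorial : ℝ) * ((n1 + (x * T + S)).choose n1 : ℝ)) *
          ((n2.factorial : ℝ) * ((n2 + (y * T + S)).choose n2 : ℝ))) := by ring
      _ ≤ (∏ g, ((q g).factorial : ℝ)) *
          ((((x : ℝ) + (n1 + S : ℕ) / T) ^ n1 * (T : ℝ) ^ n1) *
          (((y : ℝ) + (n2 + S : ℕ) / T) ^ n2 * (T : ℝ) ^ n2)) :=
        mul_le_mul_of_nonneg_left (mul_le_mul (u1 n1 x) (u1 n2 y) (by positivity) (by positivity))
          (by positivity)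
      _ = _ := by ring
  -- limit
  have lim : Filter.Tendsto (fun T : ℕ => (∏ g, ((q g).factorial : ℝ)) *
      (((x : ℝ) + (n1 + S : ℕ) / T) ^ n1 * ((y : ℝ) + (n2 + S : ℕ) / T) ^ n2)) Filter.atTop
      (nhds ((∏ g, ((q g).factorial : ℝ)) * (((x : ℝ) + 0) ^ n1 * ((y : ℝ) + 0) ^ n2))) := by
    refine Filter.Tendsto.const_mul _ (Filter.Tendsto.mul ?_ ?_)
    · exact ((tendsto_const_div_atTop_nhds_zero_nat _).const_add _).pow _
    · exact ((tendsto_const_div_atTop_nhds_zero_nat _).const_add _).pow _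
  have fin := ge_of_tendsto lim (Filter.eventually_atTop.2 ⟨1, hT⟩)
  rw [add_zero, add_zero] at fin
  exact_mod_cast fin

/-- The bigraded Bezout inequality; the groups are given by a function `grp`. -/
theorem bezG [Infinite K] {τ : Type*} [Fintype τ] [DecidableEq τ] (grp : τ → G) (a b : G → ℕ)
    (f : τ → MvPolynomial (s1 ⊕ s2) K)
    (p : ι → s1 ⊕ s2 → K) (hp : Function.Injective p) (hf : ∀ k i, eval (p k) (f i) = 0)
    (hJ : ∀ k, ∀ V, jac f (p k) V = 0 → V = 0)
    (hd : ∀ i, f i ∈ Wb K s1 s2 (a (grp i)) (b (grp i)))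
    (hc : Fintype.card τ = Fintype.card s1 + Fintype.card s2) (α : G → ℕ) :
    Fintype.card ι * (∏ g, α g ^ Fintype.card {i // grp i = g}) *
        ((Fintype.card s1).factorial * (Fintype.card s2).factorial) ≤
      (∏ g, (Fintype.card {i // grp i = g}).factorial) *
        ((∑ g, a g * α g) ^ Fintype.card s1 * (∑ g, b g * α g) ^ Fintype.card s2) := by
  have hcard : ∑ g, Fintype.card {i // grp i = g} = Fintype.card τ := by
    rw [← Fintype.card_sigma]
    exact Fintype.card_congr (Equiv.sigmaFiberEquiv grp)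
  refine bezS (t := fun g => {i // grp i = g}) a b (fun i => f i.2.1) p hp (fun k i => hf k _)
    (fun k => ?_) (fun i => ?_) (hcard.trans hc) α
  · -- surjectivity
    let L : ((s1 ⊕ s2) → K) →ₗ[K] ((Σ g, {i // grp i = g}) → K) :=
      { toFun := jac (fun i : Σ g, {i // grp i = g} => f i.2.1) (p k)
        map_add' := fun u v => by
          ext i
          simp [jac, mul_add, Finset.sum_add_distrib]
        map_smul' := fun c v => by
          ext i
          simp only [jac, Pi.smul_apply, smul_eq_mul, RingHom.id_apply, Finset.mul_sum]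
          exact Finset.sum_congr rfl fun j _ => by ring }
    have hinj : Function.Injective L := by
      rw [← LinearMap.ker_eq_bot, LinearMap.ker_eq_bot']
      intro V hV
      refine hJ k V ?_
      funext i
      exact congrFun hV ⟨grp i, i, rfl⟩
    have := (LinearMap.injective_iff_surjective_of_finrank_eq_finrank (f := L) (by
      rw [Module.finrank_fintype_fun_eq_card, Module.finrank_fintype_fun_eq_card,
        Fintype.card_sigma, hcard, hc, Fintype.card_sum])).1 hinj
    exact this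
  · have h := hd i.2.1
    rw [i.2.2] at h
    exact h

end Pool.Agent.Helper40.FD
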