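import Pool.Agent.Helper40.FD.Sys

/-!
# Number of points with a common gradient for a function of determinants

If `dF` is in the span of the differentials of the determinants `det (A j)` (as rational
functions), then the number of points at which the gradient of `F` takes a given value and the
Hessian is nonsingular is bounded by a bigraded Bezout number.
-/

set_option autoImplicit false
set_option linter.unusedSectionVars false

namespace Pool.Agent.Helper40.FD

open MvPolynomial Finset Bez Matrix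

/-! ### degrees -/

section deg

variable {K : Type*} [Field K] {s1 s2 : Type*} [Fintype s1] [Fintype s2] [DecidableEq s1]
  [DecidableEq s2]

theorem Wb_rename {f : MvPolynomial s1 K} {k : ℕ} (hf : f.totalDegree ≤ k) :
    rename (Sum.inl : s1 → s1 ⊕ s2) f ∈ Wb K s1 s2 k 0 := by
  rw [f.as_sum, map_sum]
  refine Submodule.sum_mem _ fun a ha => ?_
  rw [rename_monomial]
  rw [mem_Wb]
  intro b hb
  have hb' := support_monomial_subset hb
  rw [Finset.mem_singleton] at hb'
  subst hb'
  have h1 : ∑ i, a i ≤ k := by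
    have := le_totalDegree ha
    rw [Finsupp.sum_fintype _ _ (fun _ => rfl)] at this
    exact this.trans hf
  constructor
  · refine le_trans (le_of_eq (Finset.sum_congr rfl fun i _ => ?_)) h1
    exact Finsupp.mapDomain_apply Sum.inl_injective _ _
  · refine le_of_eq (Finset.sum_eq_zero fun j _ => ?_)
    refine Finsupp.mapDomain_of_notMem_range _ _ ?_
    simp

end deg

section main

variable {K : Type*} [Field K] {σ S : Type*} [Fintype σ] [DecidableEq σ] [Fintype S]
  [DecidableEq S] {μ : S → Type*} [∀ i, Fintype (μ i)] [∀ i, DecidableEq (μ i)]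

/-- the second group of variables: the entries of the inverse matrices and the multipliers -/
abbrev S2 (S : Type*) (μ : S → Type*) : Type _ := (Σ i, μ i × μ i) ⊕ S

/-- generic inverse matrix -/
noncomputable def XZ (K σ : Type*) [Field K] {S : Type*} (μ : S → Type*) (i : S) :
    Matrix (μ i) (μ i) (MvPolynomial (σ ⊕ S2 S μ) K) :=
  Matrix.of fun a b => X (Sum.inr (Sum.inl ⟨i, (a, b)⟩))

/-- polynomials in the first group of variables -/
noncomputable def rn {K σ : Type*} [Field K] {S : Type*} (μ : S → Type*) (f : MvPolynomial σ K) :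
    MvPolynomial (σ ⊕ S2 S μ) K := rename Sum.inl f

theorem rn_eval (f : MvPolynomial σ K) (q : σ ⊕ S2 S μ → K) :
    eval q (rn μ f) = eval (q ∘ Sum.inl) f := by
  unfold rn
  rw [eval_rename]

theorem rn_dd (f : MvPolynomial σ K) (q V : σ ⊕ S2 S μ → K) :
    dd q V (rn μ f) = dd (q ∘ Sum.inl) (V ∘ Sum.inl) f := by
  unfold rn
  rw [dd_rename]

/-- the system -/
noncomputable def sys (A : ∀ i, Matrix (μ i) (μ i) (MvPolynomial σ K)) (F : MvPolynomial σ K)
    (V0 : S → σ) (g : σ → K) :
    (Σ i, μ i × μ i) ⊕ (σ ⊕ S) → MvPolynomial (σ ⊕ S2 S μ) K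
  | Sum.inl x => ((A x.1).map (rn μ) * XZ K σ μ x.1 - 1) x.2.1 x.2.2
  | Sum.inr (Sum.inl v) => ∑ i, X (Sum.inr (Sum.inr i)) *
      (XZ K σ μ i * ((A i).map (pderiv v)).map (rn μ)).trace - C (g v)
  | Sum.inr (Sum.inr i) => rn μ (pderiv (V0 i) F) - C (g (V0 i))

/-- a point -/
def pt (p : σ → K) (Z : ∀ i, Matrix (μ i) (μ i) K) (u : S → K) : σ ⊕ S2 S μ → K :=
  Sum.elim p (Sum.elim (fun x => Z x.1 x.2.1 x.2.2) u)

variable (A : ∀ i, Matrix (μ i) (μ i) (MvPolynomial σ K)) (F : MvPolynomial σ K)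
    (V0 : S → σ) (g : σ → K)

theorem map_map_eval {n : Type*} (M : Matrix n n (MvPolynomial σ K)) (p : σ → K)
    (Z : ∀ i, Matrix (μ i) (μ i) K) (u : S → K) :
    (M.map (rn μ)).map (eval (pt p Z u)) = M.map (eval p) := by
  ext a b
  simp only [Matrix.map_apply, rn_eval]
  rfl

theorem map_map_dd {n : Type*} (M : Matrix n n (MvPolynomial σ K)) (p : σ → K)
    (Z : ∀ i, Matrix (μ i) (μ i) K) (u : S → K) (V : σ ⊕ S2 S μ → K) :
    (M.map (rn μ)).map (dd (pt p Z u) V) = M.map (dd p (V ∘ Sum.inl)) := by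
  ext a b
  simp only [Matrix.map_apply, rn_dd]
  rfl

theorem XZ_eval (p : σ → K) (Z : ∀ i, Matrix (μ i) (μ i) K) (u : S → K) (i : S) :
    (XZ K σ μ i).map (eval (pt p Z u)) = Z i := by
  ext a b
  simp only [XZ, Matrix.map_apply, Matrix.of_apply, eval_X]
  rfl

theorem XZ_dd (q V : σ ⊕ S2 S μ → K) (i : S) :
    (XZ K σ μ i).map (dd q V) = Matrix.of fun a b => V (Sum.inr (Sum.inl ⟨i, (a, b)⟩)) := by
  ext a b
  simp only [XZ, Matrix.map_apply, Matrix.of_apply, dd_X]

theorem sys_deg {k D : ℕ} (hA : ∀ i a b, (A i a b).totalDegree ≤ k)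
    (hA' : ∀ v i a b, (pderiv v (A i a b)).totalDegree ≤ k)
    (hF : ∀ v, (pderiv v F).totalDegree ≤ D) :
    (∀ x, sys A F V0 g (Sum.inl x) ∈ Wb K σ (S2 S μ) k 1) ∧
    (∀ v, sys A F V0 g (Sum.inr (Sum.inl v)) ∈ Wb K σ (S2 S μ) k 2) ∧
    (∀ i, sys A F V0 g (Sum.inr (Sum.inr i)) ∈ Wb K σ (S2 S μ) D 0) := by
  refine ⟨?_, ?_, ?_⟩
  · rintro ⟨i, a, b⟩
    simp only [sys, Matrix.sub_apply, Matrix.mul_apply, Matrix.map_apply, XZ, Matrix.of_apply]
    refine Submodule.sub_mem _ (Submodule.sum_mem _ fun c _ => ?_) ?_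
    · exact Wb_mul (d1 := k) (d2 := 0) (e1 := 0) (e2 := 1) (Wb_rename (hA i a c)) (Wb_Xr _)
    · rw [Matrix.one_apply]
      split_ifs
      · exact Wb_mono (Nat.zero_le _) (Nat.zero_le _) Wb_one
      · exact Submodule.zero_mem _
  · intro v
    simp only [sys]
    refine Submodule.sub_mem _ (Submodule.sum_mem _ fun i _ => ?_)
      (Wb_mono (Nat.zero_le _) (Nat.zero_le _) (Wb_C _))
    have h1 : (XZ K σ μ i * ((A i).map (pderiv v)).map (rn μ)).trace ∈
        Wb K σ (S2 S μ) k 1 := by
      simp only [Matrix.trace, Matrix.diag_apply, Matrix.mul_apply, Matrix.map_apply, XZ,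
        Matrix.of_apply]
      refine Submodule.sum_mem _ fun a _ => Submodule.sum_mem _ fun b _ => ?_
      exact Wb_mono (by omega) (by omega) (Wb_mul (d1 := 0) (d2 := 1) (e1 := k) (e2 := 0)
        (Wb_Xr _) (Wb_rename (hA' v i b a)))
    exact Wb_mono (by omega) (by omega) (Wb_mul (d1 := 0) (d2 := 1) (e1 := k) (e2 := 1)
      (Wb_Xr _) h1)
  · intro i
    simp only [sys]
    exact Submodule.sub_mem _ (Wb_rename (hF _))
      (Wb_mono (Nat.zero_le _) (Nat.zero_le _) (Wb_C _))

theorem sys_eval (p : σ → K) (Z : ∀ i, Matrix (μ i) (μ i) K) (u : S → K)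
    (hZ : ∀ i, (A i).map (eval p) * Z i = 1)
    (hg : ∀ v, eval p (pderiv v F) = g v)
    (hu : ∀ v, ∑ i, u i * (Z i * ((A i).map (pderiv v)).map (eval p)).trace = g v) :
    ∀ x, eval (pt p Z u) (sys A F V0 g x) = 0 := by
  rintro (⟨i, a, b⟩ | v | i)
  · simp only [sys, Matrix.sub_apply, map_sub]
    have h1 : eval (pt p Z u) (((A i).map (rn μ) * XZ K σ μ i) a b) =
        (1 : Matrix (μ i) (μ i) K) a b := by
      rw [← hZ i, ← XZ_eval p Z u i, ← map_map_eval (A i) p Z u, ← Matrix.map_mul]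
      rfl
    rw [h1]
    simp only [Matrix.one_apply]
    split_ifs <;> simp
  · simp only [sys, map_sub, map_sum, map_mul, eval_X, eval_C]
    have h1 : ∀ i, eval (pt p Z u)
        (XZ K σ μ i * ((A i).map (pderiv v)).map (rn μ)).trace =
        (Z i * ((A i).map (pderiv v)).map (eval p)).trace := by
      intro i
      rw [← XZ_eval p Z u i, ← map_map_eval ((A i).map (pderiv v)) p Z u, ← Matrix.map_mul,
        Matrix.trace, Matrix.trace, map_sum]
      rfl
    rw [← hu v]
    simp only [h1]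
    exact sub_self _
  · simp only [sys, map_sub, eval_C]
    rw [rn_eval]
    exact sub_eq_zero.2 (hg _)

/-- nondegeneracy of the system -/
theorem sys_nondeg (Δ0 : MvPolynomial σ K) (c : S → MvPolynomial σ K)
    (hspan : ∀ v, Δ0 * pderiv v F = ∑ j, c j * pderiv v (A j).det)
    (p : σ → K) (Z : ∀ i, Matrix (μ i) (μ i) K) (u : S → K)
    (hZ : ∀ i, (A i).map (eval p) * Z i = 1)
    (hg : ∀ v, eval p (pderiv v F) = g v)
    (hH : ∀ w : σ → K, (∀ v, ∑ v', eval p (pderiv v' (pderiv v F)) * w v' = 0) → w = 0)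
    (hdet : ∀ i, eval p (A i).det ≠ 0) (hΔ : eval p Δ0 ≠ 0)
    (hminor : (Matrix.of fun i j => eval p (pderiv (V0 i) (A j).det)).det ≠ 0)
    (hu : ∀ i, eval p Δ0 * u i = eval p (c i) * eval p (A i).det)
    (V : σ ⊕ S2 S μ → K) (hV : jac (sys A F V0 g) (pt p Z u) V = 0) : V = 0 := by
  have hV' : ∀ x, dd (pt p Z u) V (sys A F V0 g x) = 0 := fun x => congrFun hV x
  set x' : σ → K := V ∘ Sum.inl with hx'
  set Z' : ∀ i, Matrix (μ i) (μ i) K := fun i =>
    Matrix.of fun a b => V (Sum.inr (Sum.inl ⟨i, (a, b)⟩)) with hZ'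
  set u' : S → K := fun i => V (Sum.inr (Sum.inr i)) with hu'
  -- first group
  have e1 : ∀ i, (A i).map (dd p x') * Z i + (A i).map (eval p) * Z' i = 0 := by
    intro i
    have h1 := map_dd_mul (pt p Z u) V ((A i).map (rn μ)) (XZ K σ μ i)
    rw [map_map_dd, map_map_eval, XZ_eval, XZ_dd] at h1
    rw [hx', hZ']
    dsimp only
    rw [← h1]
    ext a b
    have h2 := hV' (Sum.inl ⟨i, (a, b)⟩)
    simp only [sys, Matrix.sub_apply, map_sub] at h2
    have h3 : dd (pt p Z u) V ((1 : Matrix (μ i) (μ i) (MvPolynomial (σ ⊕ S2 S μ) K)) a b) = 0 := by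
      rw [Matrix.one_apply]
      split_ifs
      · rw [← C_1, dd_C]
      · rw [map_zero]
    rw [h3, sub_zero] at h2
    exact h2
  -- notation
  set t : S → σ → K := fun i v => (Z i * ((A i).map (pderiv v)).map (eval p)).trace with ht
  set s : S → σ → K := fun i v => (Z' i * ((A i).map (pderiv v)).map (eval p)).trace +
    (Z i * ((A i).map (pderiv v)).map (dd p x')).trace with hs
  -- second group
  have e2 : ∀ v, ∑ i, (u' i * t i v + u i * s i v) = 0 := by
    intro v
    have h2 := hV' (Sum.inr (Sum.inl v))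
    simp only [sys, map_sub, dd_C, sub_zero, map_sum, dd_mul, dd_X, eval_X] at h2
    rw [← h2]
    refine Finset.sum_congr rfl fun i _ => ?_
    have h3 : eval (pt p Z u)
        (XZ K σ μ i * ((A i).map (pderiv v)).map (rn μ)).trace = t i v := by
      rw [ht]
      dsimp only
      rw [← XZ_eval p Z u i, ← map_map_eval ((A i).map (pderiv v)) p Z u, ← Matrix.map_mul,
        Matrix.trace, Matrix.trace, map_sum]
      rfl
    have h4 : dd (pt p Z u) V
        (XZ K σ μ i * ((A i).map (pderiv v)).map (rn μ)).trace = s i v := by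
      have h5 := map_dd_mul (pt p Z u) V (XZ K σ μ i) (((A i).map (pderiv v)).map (rn μ))
      rw [map_map_dd, map_map_eval, XZ_eval, XZ_dd] at h5
      rw [hs]
      dsimp only
      rw [← Matrix.trace_add, hZ', hx']
      dsimp only
      rw [← h5, Matrix.trace, Matrix.trace, map_sum]
      rfl
    rw [h3, h4]
    rfl
  -- third group
  have e3 : ∀ i, dd p x' (pderiv (V0 i) F) = 0 := by
    intro i
    have h2 := hV' (Sum.inr (Sum.inr i))
    simp only [sys, map_sub, dd_C, sub_zero] at h2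
    rw [rn_dd] at h2
    exact h2
  have f1 : ∀ i v, eval p (pderiv v (A i).det) = eval p (A i).det * t i v := fun i v =>
    det_pderiv_eval (A i) p (Z i) (hZ i) v
  have f2 : ∀ i v, dd p x' (pderiv v (A i).det) = dd p x' (A i).det * t i v +
      eval p (A i).det * s i v := fun i v => det_dd (A i) p x' (Z i) (Z' i) (hZ i) (e1 i) v
  -- the coefficients
  set w : S → K := fun j => dd p x' (c j) * eval p (A j).det + eval p (c j) * dd p x' (A j).det -
    dd p x' Δ0 * u j - eval p Δ0 * u' j with hw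
  have f3 : ∀ v, g v = ∑ j, u j * t j v := by
    intro v
    have h1 := congrArg (eval p) (hspan v)
    rw [map_mul, hg, map_sum] at h1
    refine mul_left_cancel₀ hΔ ?_
    rw [h1, Finset.mul_sum]
    refine Finset.sum_congr rfl fun j _ => ?_
    rw [map_mul, f1, ← mul_assoc, ← hu j]
    ring
  have f4 : ∀ v, eval p Δ0 * dd p x' (pderiv v F) = ∑ j, w j * t j v := by
    intro v
    have h1 := congrArg (dd p x') (hspan v)
    rw [dd_mul, hg, map_sum] at h1
    have h2 : eval p Δ0 * dd p x' (pderiv v F) =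
        ∑ j, dd p x' (c j * pderiv v (A j).det) - dd p x' Δ0 * g v := by
      rw [← h1]
      ring
    rw [h2, f3 v, Finset.mul_sum, ← Finset.sum_sub_distrib]
    have h3 : ∑ j, w j * t j v = ∑ j, w j * t j v +
        eval p Δ0 * ∑ i, (u' i * t i v + u i * s i v) := by
      rw [e2 v, mul_zero, add_zero]
    rw [h3, Finset.mul_sum, ← Finset.sum_add_distrib]
    refine Finset.sum_congr rfl fun j _ => ?_
    rw [dd_mul, f1, f2, hw]
    dsimp only
    have h5 := hu j
    linear_combination (-(s j v)) * h5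
  have hw0 : w = 0 := by
    have h1 : (Matrix.of fun i j => eval p (pderiv (V0 i) (A j).det)) *ᵥ
        (fun j => w j / eval p (A j).det) = 0 := by
      funext i
      have h2 := f4 (V0 i)
      rw [e3 i, mul_zero] at h2
      rw [Matrix.mulVec, dotProduct]
      simp only [Matrix.of_apply, Pi.zero_apply]
      rw [h2]
      refine Finset.sum_congr rfl fun j _ => ?_
      rw [f1]
      have := hdet j
      field_simp
    have h2 := Matrix.eq_zero_of_mulVec_eq_zero hminor h1
    funext j
    have h3 := congrFun h2 j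
    simp only [Pi.zero_apply] at h3
    exact (div_eq_zero_iff.1 h3).resolve_right (hdet j)
  have hx0 : x' = 0 := by
    refine hH x' fun v => ?_
    have h1 := f4 v
    rw [hw0] at h1
    simp only [Pi.zero_apply, zero_mul, Finset.sum_const_zero] at h1
    exact (mul_eq_zero.1 h1).resolve_left hΔ
  have hu0 : ∀ j, u' j = 0 := by
    intro j
    have h1 := congrFun hw0 j
    simp only [hw, hx0, dd_zero_right, Pi.zero_apply, zero_mul, mul_zero, add_zero, sub_zero,
      zero_sub, neg_eq_zero] at h1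
    exact (mul_eq_zero.1 h1).resolve_left hΔ
  have hZ0 : ∀ i, Z' i = 0 := by
    intro i
    have h1 := e1 i
    have h2 : (A i).map (dd p x') = 0 := by
      ext a b
      simp only [Matrix.map_apply, hx0, dd_zero_right, Matrix.zero_apply]
    rw [h2, Matrix.zero_mul, zero_add] at h1
    have hZl : Z i * (A i).map (eval p) = 1 := mul_eq_one_comm.1 (hZ i)
    have h3 := congrArg (fun M => Z i * M) h1
    rw [← Matrix.mul_assoc, hZl, Matrix.one_mul, Matrix.mul_zero] at h3
    exact h3
  funext y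
  rcases y with v | ⟨i, a, b⟩ | i
  · exact congrFun hx0 v
  · exact congrFun (congrFun (hZ0 i) a) b
  · exact hu0 i

/-- the groups of equations -/
def grp (S : Type*) (μ : S → Type*) (σ : Type*) : (Σ i, μ i × μ i) ⊕ (σ ⊕ S) → Fin 3
  | Sum.inl _ => 0
  | Sum.inr (Sum.inl _) => 1
  | Sum.inr (Sum.inr _) => 2

theorem card_grp0 : Fintype.card {x // grp S μ σ x = 0} = Fintype.card (Σ i, μ i × μ i) := by
  refine Fintype.card_congr ⟨fun x => match x with
    | ⟨Sum.inl y, _⟩ => y
    | ⟨Sum.inr (Sum.inl _), h⟩ => absurd h (by simp [grp])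
    | ⟨Sum.inr (Sum.inr _), h⟩ => absurd h (by simp [grp]),
    fun y => ⟨Sum.inl y, rfl⟩, ?_, fun y => rfl⟩
  rintro ⟨y | y | y, h⟩
  · rfl
  · exact absurd h (by simp [grp])
  · exact absurd h (by simp [grp])

theorem card_grp1 : Fintype.card {x // grp S μ σ x = 1} = Fintype.card σ := by
  refine Fintype.card_congr ⟨fun x => match x with
    | ⟨Sum.inl _, h⟩ => absurd h (by simp [grp])
    | ⟨Sum.inr (Sum.inl y), _⟩ => y
    | ⟨Sum.inr (Sum.inr _), h⟩ => absurd h (by simp [grp]),
    fun y => ⟨Sum.inr (Sum.inl y), rfl⟩, ?_, fun y => rfl⟩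
  rintro ⟨y | y | y, h⟩
  · exact absurd h (by simp [grp])
  · rfl
  · exact absurd h (by simp [grp])

theorem card_grp2 : Fintype.card {x // grp S μ σ x = 2} = Fintype.card S := by
  refine Fintype.card_congr ⟨fun x => match x with
    | ⟨Sum.inl _, h⟩ => absurd h (by simp [grp])
    | ⟨Sum.inr (Sum.inl _), h⟩ => absurd h (by simp [grp])
    | ⟨Sum.inr (Sum.inr y), _⟩ => y,
    fun y => ⟨Sum.inr (Sum.inr y), rfl⟩, ?_, fun y => rfl⟩
  rintro ⟨y | y | y, h⟩
  · exact absurd h (by simp [grp])
  · exact absurd h (by simp [grp])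
  · rfl

/-- The Bezout bound for the number of points where the gradient of a function of determinants
takes a given value and the Hessian is nonsingular. -/
theorem fd_bez [Infinite K] {k D : ℕ} (hA : ∀ i a b, (A i a b).totalDegree ≤ k)
    (hA' : ∀ v i a b, (pderiv v (A i a b)).totalDegree ≤ k)
    (hF : ∀ v, (pderiv v F).totalDegree ≤ D)
    (Δ0 : MvPolynomial σ K) (c : S → MvPolynomial σ K)
    (hspan : ∀ v, Δ0 * pderiv v F = ∑ j, c j * pderiv v (A j).det)
    {ι : Type*} [Fintype ι] [DecidableEq ι] (p : ι → σ → K) (hp : Function.Injective p)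
    (hg : ∀ l v, eval (p l) (pderiv v F) = g v)
    (hH : ∀ l, ∀ w : σ → K, (∀ v, ∑ v', eval (p l) (pderiv v' (pderiv v F)) * w v' = 0) → w = 0)
    (hdet : ∀ l i, eval (p l) (A i).det ≠ 0) (hΔ : ∀ l, eval (p l) Δ0 ≠ 0)
    (hminor : ∀ l, (Matrix.of fun i j => eval (p l) (pderiv (V0 i) (A j).det)).det ≠ 0)
    (α β γ : ℕ) :
    Fintype.card ι * (α ^ Fintype.card (Σ i, μ i × μ i) * β ^ Fintype.card σ *
        γ ^ Fintype.card S) *
        ((Fintype.card σ).factorial * (Fintype.card (Σ i, μ i × μ i) + Fintype.card S).factorial) ≤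
      ((Fintype.card (Σ i, μ i × μ i)).factorial * (Fintype.card σ).factorial *
        (Fintype.card S).factorial) *
      ((k * α + k * β + D * γ) ^ Fintype.card σ *
        (α + 2 * β) ^ (Fintype.card (Σ i, μ i × μ i) + Fintype.card S)) := by
  classical
  set Z : ι → ∀ i, Matrix (μ i) (μ i) K := fun l i => ((A i).map (eval (p l)))⁻¹ with hZdef
  set u : ι → S → K := fun l i => eval (p l) (c i) * eval (p l) (A i).det / eval (p l) Δ0
    with hudef
  have hZ : ∀ l i, (A i).map (eval (p l)) * Z l i = 1 := by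
    intro l i
    refine Matrix.mul_nonsing_inv _ ?_
    rw [isUnit_iff_ne_zero]
    have h := RingHom.map_det (eval (p l)) (A i)
    rw [RingHom.mapMatrix_apply] at h
    rw [← h]
    exact hdet l i
  have hu : ∀ l i, eval (p l) Δ0 * u l i = eval (p l) (c i) * eval (p l) (A i).det := by
    intro l i
    rw [hudef]
    dsimp only
    rw [mul_div_cancel₀ _ (hΔ l)]
  have hu2 : ∀ l v, ∑ i, u l i * (Z l i * ((A i).map (pderiv v)).map (eval (p l))).trace =
      g v := by
    intro l v
    have h1 := congrArg (eval (p l)) (hspan v)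
    rw [map_mul, hg, map_sum] at h1
    refine mul_left_cancel₀ (hΔ l) ?_
    rw [h1, Finset.mul_sum]
    refine Finset.sum_congr rfl fun j _ => ?_
    rw [map_mul, det_pderiv_eval (A j) (p l) (Z l j) (hZ l j), ← mul_assoc, ← mul_assoc, hu l j]
  obtain ⟨d1, d2, d3⟩ := sys_deg A F V0 g hA hA' hF
  have h := bezG (K := K) (s1 := σ) (s2 := S2 S μ) (grp S μ σ) ![k, k, D] ![1, 2, 0]
    (sys A F V0 g) (fun l => pt (p l) (Z l) (u l)) ?_
    (fun l => sys_eval A F V0 g (p l) (Z l) (u l) (hZ l) (hg l) (hu2 l))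
    (fun l => sys_nondeg A F V0 g Δ0 c hspan (p l) (Z l) (u l) (hZ l) (hg l) (hH l) (hdet l)
      (hΔ l) (hminor l) (hu l)) ?_ ?_ ![α, β, γ]
  · simp only [Fin.prod_univ_three, Fin.sum_univ_three, card_grp0, card_grp1, card_grp2,
      Matrix.cons_val_zero, Matrix.cons_val_one, Matrix.cons_val_two, Matrix.head_cons,
      Matrix.tail_cons, one_mul, zero_mul, add_zero, Fintype.card_sum] at h
    exact h
  · intro l l' hll
    apply hp
    funext v
    exact congrFun hll (Sum.inl v)
  · rintro (x | v | i)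
    · exact d1 x
    · exact d2 v
    · exact d3 i
  · simp only [Fintype.card_sum]
    ring

end main

end Pool.Agent.Helper40.FD
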