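import Pool.Agent.Helper24.SQ.IFT

/-!
# A polynomial which is a function of other polynomials

If the value `F(x)` is determined by the values `δ_i(x)`, then `dF` is in the span (over the
rational functions) of a maximal independent set of the differentials `dδ_i`.
-/

set_option autoImplicit false
set_option linter.unusedSectionVars false

namespace Pool.Agent.Helper40.FD

open MvPolynomial Filter Topology Pool.Agent.Helper24.SQ Matrix

/-! ### linear algebra -/

theorem bordered {ρ : ℕ} (M : Matrix (Fin ρ) (Fin ρ) ℂ) (hM : M.det ≠ 0) (b r : Fin ρ → ℂ) (d : ℂ)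
    (h : (Matrix.of (Fin.cons (Fin.cons d r) (fun i => Fin.cons (b i) (M i))) :
      Matrix (Fin (ρ + 1)) (Fin (ρ + 1)) ℂ).det = 0) :
    d = ∑ j, r j * (M⁻¹ *ᵥ b) j := by
  obtain ⟨z, hz0, hz⟩ := Matrix.exists_mulVec_eq_zero_iff.2 h
  have hunit : IsUnit M.det := isUnit_iff_ne_zero.2 hM
  have h0 : d * z 0 + ∑ j, r j * z (Fin.succ j) = 0 := by
    have := congrFun hz 0
    simpa [Matrix.mulVec, dotProduct, Fin.sum_univ_succ] using this
  have h1 : ∀ i, b i * z 0 + ∑ j, M i j * z (Fin.succ j) = 0 := by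
    intro i
    have := congrFun hz (Fin.succ i)
    simpa [Matrix.mulVec, dotProduct, Fin.sum_univ_succ] using this
  have h2 : M *ᵥ (fun j => z (Fin.succ j)) = -(z 0 • b) := by
    funext i
    simp only [Matrix.mulVec, dotProduct, Pi.neg_apply, Pi.smul_apply, smul_eq_mul]
    linear_combination h1 i
  have h3 : (fun j => z (Fin.succ j)) = -(z 0 • (M⁻¹ *ᵥ b)) := by
    have := congrArg (fun w => M⁻¹ *ᵥ w) h2
    rw [Matrix.mulVec_mulVec, Matrix.nonsing_inv_mul _ hunit, Matrix.one_mulVec,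
      Matrix.mulVec_neg, Matrix.mulVec_smul] at this
    exact this
  have hz00 : z 0 ≠ 0 := by
    intro h4
    apply hz0
    funext i
    refine Fin.cases h4 (fun j => ?_) i
    have := congrFun h3 j
    rw [h4, zero_smul, neg_zero] at this
    exact this
  have h4 : ∀ j, z (Fin.succ j) = -(z 0 * (M⁻¹ *ᵥ b) j) := fun j => congrFun h3 j
  simp only [h4] at h0
  refine mul_right_cancel₀ hz00 ?_
  rw [Finset.sum_mul]
  have h5 : ∑ j, r j * -(z 0 * (M⁻¹ *ᵥ b) j) = -∑ j, r j * (M⁻¹ *ᵥ b) j * z 0 := by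
    rw [← Finset.sum_neg_distrib]
    exact Finset.sum_congr rfl fun j _ => by ring
  rw [h5] at h0
  linear_combination h0

/-! ### the analytic argument -/

section analytic

variable {σ : Type} [Fintype σ] [DecidableEq σ]

/-- polynomial maps -/
noncomputable def pmap (P : σ → MvPolynomial σ ℂ) (x : σ → ℂ) : σ → ℂ := fun v => eval x (P v)

/-- Jacobian matrix of a polynomial map -/
noncomputable def pjac (P : σ → MvPolynomial σ ℂ) (x : σ → ℂ) : Matrix σ σ ℂ :=
  Matrix.of fun v v' => eval x (pderiv v' (P v))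

theorem pmap_continuous (P : σ → MvPolynomial σ ℂ) : Continuous (pmap P) :=
  continuous_pi fun v => MvPolynomial.continuous_eval (P v)

/-- the derivative as a continuous linear equivalence -/
noncomputable def peq (P : σ → MvPolynomial σ ℂ) (x : σ → ℂ) (h : (pjac P x).det ≠ 0) :
    (σ → ℂ) ≃L[ℂ] (σ → ℂ) :=
  (LinearEquiv.ofInjectiveEndo (pjac P x).mulVecLin (by
    rw [← LinearMap.ker_eq_bot, LinearMap.ker_eq_bot']
    intro w hw
    exact Matrix.eq_zero_of_mulVec_eq_zero h hw)).toContinuousLinearEquiv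

theorem peq_apply (P : σ → MvPolynomial σ ℂ) (x : σ → ℂ) (h : (pjac P x).det ≠ 0) (w : σ → ℂ) :
    peq P x h w = pjac P x *ᵥ w := rfl

theorem pmap_strict (P : σ → MvPolynomial σ ℂ) (x : σ → ℂ) (h : (pjac P x).det ≠ 0) :
    HasStrictFDerivAt (pmap P) (peq P x h : (σ → ℂ) →L[ℂ] (σ → ℂ)) x := by
  have h1 : HasStrictFDerivAt (pmap P) (ContinuousLinearMap.pi fun v => iftD (P v) x) x := by
    rw [hasStrictFDerivAt_pi']
    intro v
    rw [ContinuousLinearMap.proj_pi]
    exact ift_hasStrict (P v) x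
  refine h1.congr_fderiv ?_
  ext w v
  change iftD (P v) x w = (pjac P x *ᵥ w) v
  rw [iftD_apply]
  rfl

/-- Integral curves of the common kernel: a curve through `p` in the direction `w` along which all
the polynomials `q` with `dq ∈ span` are constant. -/
theorem deriv_zero_of_const {R : Type} (P : σ → MvPolynomial σ ℂ) (δ : R → MvPolynomial σ ℂ)
    (F : MvPolynomial σ ℂ)
    (hfun : ∀ x y : σ → ℂ, (∀ i, eval x (δ i) = eval y (δ i)) → eval x F = eval y F)
    (T : Set σ)
    (hspan : ∀ x, (pjac P x).det ≠ 0 → ∀ i, ∀ w : σ → ℂ,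
      (∀ v ∈ T, ∑ v', eval x (pderiv v' (P v)) * w v' = 0) →
      ∑ v', eval x (pderiv v' (δ i)) * w v' = 0)
    (p : σ → ℂ) (hp : (pjac P p).det ≠ 0) (w : σ → ℂ)
    (hw : ∀ v ∈ T, ∑ v', eval p (pderiv v' (P v)) * w v' = 0) :
    ∑ v', eval p (pderiv v' F) * w v' = 0 := by
  set e := (pmap_strict P p hp).toOpenPartialHomeomorph (pmap P) with he
  have hecoe : (e : (σ → ℂ) → σ → ℂ) = pmap P := rfl
  have hpsrc : p ∈ e.source := (pmap_strict P p hp).mem_toOpenPartialHomeomorph_source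
  set y0 : σ → ℂ := pjac P p *ᵥ w with hy0
  have hptgt : pmap P p ∈ e.target := e.map_source hpsrc
  have hsymm0 : e.symm (pmap P p) = p := e.left_inv hpsrc
  -- the line in the target
  set q : ℂ → (σ → ℂ) := fun t => pmap P p + t • y0 with hq
  have hqc : Continuous q := by
    rw [hq]
    fun_prop
  have hq0 : q 0 = pmap P p := by simp [hq]
  -- a ball on which everything is fine
  have hev : ∀ᶠ t : ℂ in 𝓝 0, q t ∈ e.target ∧ (pjac P (e.symm (q t))).det ≠ 0 := by
    have h1 : ∀ᶠ t : ℂ in 𝓝 0, q t ∈ e.target :=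
      hqc.continuousAt.eventually (e.open_target.mem_nhds (by rw [hq0]; exact hptgt))
    have h2 : ContinuousAt (fun t => (pjac P (e.symm (q t))).det) 0 := by
      have h3 : ContinuousAt (fun t => e.symm (q t)) 0 := by
        refine ContinuousAt.comp ?_ hqc.continuousAt
        rw [hq0]
        exact e.continuousAt_symm hptgt
      have h4 : Continuous fun x => (pjac P x).det :=
        Continuous.matrix_det (continuous_matrix fun _ _ => MvPolynomial.continuous_eval _)
      exact h4.continuousAt.comp h3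
    have h5 : ∀ᶠ t : ℂ in 𝓝 0, (pjac P (e.symm (q t))).det ≠ 0 := by
      refine h2.eventually_ne ?_
      rw [hq0, hsymm0]
      exact hp
    exact h1.and h5
  obtain ⟨ε, hε, hball⟩ := Metric.eventually_nhds_iff_ball.1 hev
  set γ : ℂ → (σ → ℂ) := fun t => e.symm (q t) with hγ
  have hqd : ∀ t, HasDerivAt q y0 t := by
    intro t
    have h1 : HasDerivAt (fun t : ℂ => t • y0) ((1 : ℂ) • y0) t := (hasDerivAt_id t).smul_const y0
    rw [one_smul] at h1
    exact h1.const_add _
  have hγd : ∀ t ∈ Metric.ball (0 : ℂ) ε, ∃ g' : σ → ℂ, HasDerivAt γ g' t ∧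
      pjac P (γ t) *ᵥ g' = y0 := by
    intro t ht
    obtain ⟨h1, h2⟩ := hball t ht
    have h3 := e.hasFDerivAt_symm h1 (f' := peq P (γ t) h2) (pmap_strict P (γ t) h2).hasFDerivAt
    refine ⟨(peq P (γ t) h2).symm y0, ?_, ?_⟩
    · exact h3.comp_hasDerivAt t (hqd t)
    · rw [← peq_apply P (γ t) h2]
      exact (peq P (γ t) h2).apply_symm_apply y0
  have hcomp : ∀ (f : MvPolynomial σ ℂ) (t : ℂ) (g' : σ → ℂ), HasDerivAt γ g' t →
      HasDerivAt (fun t => eval (γ t) f) (∑ v', eval (γ t) (pderiv v' f) * g' v') t := by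
    intro f t g' hg'
    have h1 := (ift_hasStrict f (γ t)).hasFDerivAt.comp_hasDerivAt t hg'
    rw [iftD_apply] at h1
    exact h1
  have hγT : ∀ t ∈ Metric.ball (0 : ℂ) ε, ∀ g' : σ → ℂ, pjac P (γ t) *ᵥ g' = y0 →
      ∀ v ∈ T, ∑ v', eval (γ t) (pderiv v' (P v)) * g' v' = 0 := by
    intro t _ g' hg' v hv
    have h1 := congrFun hg' v
    rw [hy0] at h1
    have h2 : (pjac P p *ᵥ w) v = 0 := hw v hv
    rw [h2] at h1
    exact h1
  have hδ : ∀ i, ∀ t ∈ Metric.ball (0 : ℂ) ε, eval (γ t) (δ i) = eval (γ 0) (δ i) := by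
    intro i t ht
    refine Metric.isOpen_ball.is_const_of_deriv_eq_zero (𝕜 := ℂ)
      (f := fun t => eval (γ t) (δ i)) (convex_ball _ _).isPreconnected ?_ ?_ ht
      (Metric.mem_ball_self hε)
    · intro t ht
      obtain ⟨g', hg', -⟩ := hγd t ht
      exact (hcomp (δ i) t g' hg').differentiableAt.differentiableWithinAt
    · intro t ht
      obtain ⟨g', hg', hg2⟩ := hγd t ht
      have h1 := (hcomp (δ i) t g' hg').deriv
      rw [h1]
      exact hspan (γ t) (hball t ht).2 i g' (hγT t ht g' hg2)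
  have hF : ∀ t ∈ Metric.ball (0 : ℂ) ε, eval (γ t) F = eval (γ 0) F := fun t ht =>
    hfun _ _ fun i => hδ i t ht
  have hγ0 : γ 0 = p := by
    rw [hγ]
    dsimp only
    rw [hq0, hsymm0]
  obtain ⟨g', hg', hg2⟩ := hγd 0 (Metric.mem_ball_self hε)
  have hg'w : g' = w := by
    rw [hγ0] at hg2
    have h1 : pjac P p *ᵥ (g' - w) = 0 := by
      rw [Matrix.mulVec_sub, hg2, hy0, sub_self]
    exact sub_eq_zero.1 (Matrix.eq_zero_of_mulVec_eq_zero hp h1)
  have h1 := hcomp F 0 g' hg'
  rw [hγ0, hg'w] at h1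
  have h2 : HasDerivAt (fun t => eval (γ t) F) 0 0 := by
    refine (hasDerivAt_const (0 : ℂ) (eval (γ 0) F)).congr_of_eventuallyEq ?_
    filter_upwards [Metric.ball_mem_nhds (0 : ℂ) hε] with t ht
    exact hF t ht
  exact h1.unique h2

end analytic

/-! ### a maximal minor -/

section minor

variable {R σ : Type} [Fintype σ] [DecidableEq σ]

/-- a minor of the Jacobian matrix of the family `δ` -/
noncomputable def mnr {ρ : ℕ} (δ : R → MvPolynomial σ ℂ) (s : Fin ρ → R) (V0 : Fin ρ → σ) :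
    Matrix (Fin ρ) (Fin ρ) (MvPolynomial σ ℂ) :=
  Matrix.of fun i j => pderiv (V0 i) (δ (s j))

/-- the minor at a point -/
noncomputable def mnrx {ρ : ℕ} (δ : R → MvPolynomial σ ℂ) (s : Fin ρ → R) (V0 : Fin ρ → σ)
    (x : σ → ℂ) : Matrix (Fin ρ) (Fin ρ) ℂ :=
  Matrix.of fun i j => eval x (pderiv (V0 i) (δ (s j)))

theorem eval_mnr {ρ : ℕ} (δ : R → MvPolynomial σ ℂ) (s : Fin ρ → R) (V0 : Fin ρ → σ)
    (x : σ → ℂ) : eval x (mnr δ s V0).det = (mnrx δ s V0 x).det := by
  have := RingHom.map_det (eval x) (mnr δ s V0)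
  rw [this]
  rfl

theorem mnr_inj_V0 {ρ : ℕ} {δ : R → MvPolynomial σ ℂ} {s : Fin ρ → R} {V0 : Fin ρ → σ}
    (h : (mnr δ s V0).det ≠ 0) : Function.Injective V0 := by
  intro i i' hii
  by_contra hne
  apply h
  refine Matrix.det_zero_of_row_eq hne ?_
  funext j
  simp only [mnr, Matrix.of_apply, hii]

theorem mnr_inj_s {ρ : ℕ} {δ : R → MvPolynomial σ ℂ} {s : Fin ρ → R} {V0 : Fin ρ → σ}
    (h : (mnr δ s V0).det ≠ 0) : Function.Injective s := by
  intro i i' hii
  by_contra hne
  apply h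
  refine Matrix.det_zero_of_column_eq hne fun j => ?_
  simp only [mnr, Matrix.of_apply, hii]

/-- the local coordinates -/
noncomputable def lc {ρ : ℕ} (δ : R → MvPolynomial σ ℂ) (s : Fin ρ → R) (V0 : Fin ρ → σ) :
    σ → MvPolynomial σ ℂ :=
  Function.extend V0 (fun j => δ (s j)) X

theorem sum_extend {ρ : ℕ} {V0 : Fin ρ → σ} (hV : Function.Injective V0) (f : σ → ℂ)
    (z : Fin ρ → ℂ) : ∑ v, f v * Function.extend V0 z 0 v = ∑ i, f (V0 i) * z i := by
  rw [← Finset.sum_subset (Finset.subset_univ (Finset.univ.image V0))]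
  · rw [Finset.sum_image (fun a _ b _ h => hV h)]
    exact Finset.sum_congr rfl fun i _ => by rw [hV.extend_apply]
  · intro v _ hv
    rw [Function.extend_apply', Pi.zero_apply, mul_zero]
    rintro ⟨i, rfl⟩
    exact hv (Finset.mem_image_of_mem _ (Finset.mem_univ _))

theorem sum_single (f : σ → ℂ) (v : σ) : ∑ v', f v' * (if v' = v then 1 else 0) = f v := by
  simp

theorem pjac_lc_iff {ρ : ℕ} (δ : R → MvPolynomial σ ℂ) (s : Fin ρ → R) {V0 : Fin ρ → σ}
    (hV : Function.Injective V0) (x : σ → ℂ) :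
    (pjac (lc δ s V0) x).det ≠ 0 ↔ (mnrx δ s V0 x).det ≠ 0 := by
  rw [not_iff_not, ← Matrix.exists_mulVec_eq_zero_iff, ← Matrix.exists_vecMul_eq_zero_iff]
  have hout : ∀ (w : σ → ℂ) (v : σ), (¬ ∃ i, V0 i = v) → (pjac (lc δ s V0) x *ᵥ w) v = w v := by
    intro w v hv
    simp only [Matrix.mulVec, dotProduct, pjac, Matrix.of_apply, lc, Function.extend_apply' _ _ _ hv]
    rw [Finset.sum_eq_single v]
    · simp
    · intro b _ hb
      rw [pderiv_X_of_ne hb.symm, map_zero, zero_mul]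
    · simp
  have hin : ∀ (w : σ → ℂ) (j : Fin ρ), (pjac (lc δ s V0) x *ᵥ w) (V0 j) =
      ∑ v', eval x (pderiv v' (δ (s j))) * w v' := by
    intro w j
    simp only [Matrix.mulVec, dotProduct, pjac, Matrix.of_apply, lc, hV.extend_apply]
  constructor
  · rintro ⟨w, hw0, hw⟩
    have h0 : ∀ v, (¬ ∃ i, V0 i = v) → w v = 0 := fun v hv => by
      rw [← hout w v hv, hw, Pi.zero_apply]
    have hwe : w = Function.extend V0 (fun i => w (V0 i)) 0 := by
      funext v
      by_cases hv : ∃ i, V0 i = v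
      · obtain ⟨i, rfl⟩ := hv
        rw [hV.extend_apply]
      · rw [Function.extend_apply' _ _ _ hv, h0 v hv, Pi.zero_apply]
    refine ⟨fun i => w (V0 i), ?_, ?_⟩
    · intro h
      apply hw0
      rw [hwe, h]
      funext v
      by_cases hv : ∃ i, V0 i = v
      · obtain ⟨i, rfl⟩ := hv
        rw [hV.extend_apply]
        rfl
      · rw [Function.extend_apply' _ _ _ hv]
    · funext j
      have h1 := hin w j
      rw [hw, hwe, sum_extend hV] at h1
      simp only [Matrix.vecMul, dotProduct, mnrx, Matrix.of_apply, Pi.zero_apply]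
      rw [Pi.zero_apply] at h1
      rw [h1]
      exact Finset.sum_congr rfl fun i _ => mul_comm _ _
  · rintro ⟨z, hz0, hz⟩
    refine ⟨Function.extend V0 z 0, ?_, ?_⟩
    · intro h
      apply hz0
      funext i
      have := congrFun h (V0 i)
      rwa [hV.extend_apply] at this
    · funext v
      by_cases hv : ∃ i, V0 i = v
      · obtain ⟨j, rfl⟩ := hv
        rw [hin, sum_extend hV]
        have := congrFun hz j
        simp only [Matrix.vecMul, dotProduct, mnrx, Matrix.of_apply, Pi.zero_apply] at this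
        rw [Pi.zero_apply, ← this]
        exact Finset.sum_congr rfl fun i _ => mul_comm _ _
      · rw [hout _ v hv, Function.extend_apply' _ _ _ hv]

/-- The differential of a function of the `δ_i` is in the span of a maximal independent set of the
differentials of the `δ_i`. -/
theorem exists_minor (δ : R → MvPolynomial σ ℂ) (F : MvPolynomial σ ℂ)
    (hfun : ∀ x y : σ → ℂ, (∀ i, eval x (δ i) = eval y (δ i)) → eval x F = eval y F) :
    ∃ (ρ : ℕ) (s : Fin ρ → R) (V0 : Fin ρ → σ) (c : Fin ρ → MvPolynomial σ ℂ),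
      Function.Injective s ∧ Function.Injective V0 ∧ (mnr δ s V0).det ≠ 0 ∧
      ∀ v, (mnr δ s V0).det * pderiv v F = ∑ j, c j * pderiv v (δ (s j)) := by
  classical
  -- maximality
  obtain ⟨ρ, ⟨s, V0, hm⟩, hmax⟩ : ∃ ρ : ℕ, (∃ (s : Fin ρ → R) (V0 : Fin ρ → σ),
      (mnr δ s V0).det ≠ 0) ∧ ¬ ∃ (s : Fin (ρ + 1) → R) (V0 : Fin (ρ + 1) → σ),
      (mnr δ s V0).det ≠ 0 := by
    by_contra hcon
    push Not at hcon
    have hall : ∀ ρ : ℕ, ∃ (s : Fin ρ → R) (V0 : Fin ρ → σ), (mnr δ s V0).det ≠ 0 := by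
      intro ρ
      induction ρ with
      | zero => exact ⟨Fin.elim0, Fin.elim0, by rw [Matrix.det_isEmpty]; exact one_ne_zero⟩
      | succ ρ ih =>
        obtain ⟨s, V0, h⟩ := ih
        exact hcon ρ ⟨s, V0, h⟩
    obtain ⟨s, V0, h⟩ := hall (Fintype.card σ + 1)
    have := Fintype.card_le_of_injective V0 (mnr_inj_V0 h)
    rw [Fintype.card_fin] at this
    omega
  push Not at hmax
  have hV := mnr_inj_V0 hm
  -- the differentials of all `δ_i`
  have hδ : ∀ x, (mnrx δ s V0 x).det ≠ 0 → ∀ i v, eval x (pderiv v (δ i)) =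
      ∑ j, eval x (pderiv v (δ (s j))) *
        ((mnrx δ s V0 x)⁻¹ *ᵥ (fun a => eval x (pderiv (V0 a) (δ i)))) j := by
    intro x hx i v
    refine bordered (mnrx δ s V0 x) hx _ _ _ ?_
    have h1 := hmax (Fin.cons i s) (Fin.cons v V0)
    have h2 := congrArg (eval x) h1
    rw [eval_mnr, map_zero] at h2
    rw [← h2]
    congr 1
    ext a b
    refine Fin.cases ?_ (fun a => ?_) a
    · refine Fin.cases ?_ (fun b => ?_) b
      · rfl
      · rfl
    · refine Fin.cases ?_ (fun b => ?_) b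
      · rfl
      · rfl
  have hspan : ∀ x, (pjac (lc δ s V0) x).det ≠ 0 → ∀ i, ∀ w : σ → ℂ,
      (∀ v ∈ Set.range V0, ∑ v', eval x (pderiv v' (lc δ s V0 v)) * w v' = 0) →
      ∑ v', eval x (pderiv v' (δ i)) * w v' = 0 := by
    intro x hx i w hw
    rw [pjac_lc_iff δ s hV] at hx
    have h1 : ∀ j, ∑ v', eval x (pderiv v' (δ (s j))) * w v' = 0 := by
      intro j
      have := hw (V0 j) ⟨j, rfl⟩
      simpa only [lc, hV.extend_apply] using this
    have h2 : ∀ v', eval x (pderiv v' (δ i)) * w v' = ∑ j, ((mnrx δ s V0 x)⁻¹ *ᵥ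
        (fun a => eval x (pderiv (V0 a) (δ i)))) j * (eval x (pderiv v' (δ (s j))) * w v') := by
      intro v'
      rw [hδ x hx i v', Finset.sum_mul]
      exact Finset.sum_congr rfl fun j _ => by ring
    rw [Finset.sum_congr rfl fun v' _ => h2 v', Finset.sum_comm]
    refine Finset.sum_eq_zero fun j _ => ?_
    rw [← Finset.mul_sum, h1 j, mul_zero]
  refine ⟨ρ, s, V0, (mnr δ s V0).adjugate *ᵥ (fun a => pderiv (V0 a) F), mnr_inj_s hm, hV, hm,
    fun v => ?_⟩
  -- identity of polynomials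
  refine mul_left_cancel₀ hm (MvPolynomial.funext fun x => ?_)
  rw [map_mul (eval x) (mnr δ s V0).det, map_mul (eval x) (mnr δ s V0).det (∑ j, _)]
  by_cases hx : eval x (mnr δ s V0).det = 0
  · rw [hx, zero_mul, zero_mul]
  congr 1
  rw [eval_mnr] at hx
  set M := mnrx δ s V0 x with hM
  have hunit : IsUnit M.det := isUnit_iff_ne_zero.2 hx
  set r : Fin ρ → ℂ := fun j => eval x (pderiv v (δ (s j))) with hr
  set a : Fin ρ → ℂ := r ᵥ* M⁻¹ with ha
  have haM : a ᵥ* M = r := by
    rw [ha, Matrix.vecMul_vecMul, Matrix.nonsing_inv_mul _ hunit, Matrix.vecMul_one]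
  set w : σ → ℂ := fun v' => (if v' = v then 1 else 0) - Function.extend V0 a 0 v' with hw
  have hsum : ∀ f : σ → ℂ, ∑ v', f v' * w v' = f v - ∑ i, f (V0 i) * a i := by
    intro f
    rw [hw]
    simp only [mul_sub, Finset.sum_sub_distrib]
    rw [sum_extend hV, sum_single]
  have hker : ∀ v' ∈ Set.range V0,
      ∑ u, eval x (pderiv u (lc δ s V0 v')) * w u = 0 := by
    rintro _ ⟨j, rfl⟩
    rw [hsum, lc, hV.extend_apply]
    have h1 := congrFun haM j
    simp only [Matrix.vecMul, dotProduct, hr] at h1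
    rw [← h1, sub_eq_zero]
    exact Finset.sum_congr rfl fun i _ => mul_comm _ _
  have h1 := deriv_zero_of_const (lc δ s V0) δ F hfun (Set.range V0) hspan x
    ((pjac_lc_iff δ s hV x).2 hx) w hker
  rw [hsum, sub_eq_zero] at h1
  -- conclusion
  have h2 : eval x (∑ j, ((mnr δ s V0).adjugate *ᵥ fun a => pderiv (V0 a) F) j *
      pderiv v (δ (s j))) = r ⬝ᵥ (M.adjugate *ᵥ fun a => eval x (pderiv (V0 a) F)) := by
    rw [map_sum, dotProduct]
    refine Finset.sum_congr rfl fun j _ => ?_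
    rw [map_mul, mul_comm]
    congr 1
    simp only [Matrix.mulVec, dotProduct, map_sum, map_mul]
    refine Finset.sum_congr rfl fun i _ => ?_
    congr 1
    have := RingHom.map_adjugate (eval x) (mnr δ s V0)
    exact congrFun (congrFun this j) i
  rw [map_mul, eval_mnr, ← hM, h2]
  have h3 : M.adjugate = M.det • M⁻¹ := by
    rw [Matrix.inv_def, smul_smul, Ring.mul_inverse_cancel _ hunit, one_smul]
  rw [h3, Matrix.smul_mulVec, dotProduct_smul, Matrix.dotProduct_mulVec, ← ha, smul_eq_mul, h1]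
  exact congrArg _ (Finset.sum_congr rfl fun i _ => mul_comm _ _)

end minor

end Pool.Agent.Helper40.FD
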