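import Pool.Agent.Helper24.SQ.IFT

/-!
# Points with a common gradient can be moved to general position
-/

set_option autoImplicit false

namespace Pool.Agent.Helper40.FD

open MvPolynomial Filter Topology Pool.Agent.Helper24.SQ

variable {σ : Type} [Fintype σ]

/-- the Hessian matrix of `F` is nonsingular at `z` -/
def HessND (F : MvPolynomial σ ℂ) (z : σ → ℂ) : Prop :=
  ∀ w : σ → ℂ, (∀ v, ∑ v', eval z (pderiv v' (pderiv v F)) * w v' = 0) → w = 0

/-- a nonzero polynomial does not vanish on a nonempty open set -/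
theorem exists_ne_zero {Δ : MvPolynomial σ ℂ} (hΔ : Δ ≠ 0) {W : Set (σ → ℂ)} (hW : IsOpen W)
    (hne : W.Nonempty) : ∃ x ∈ W, eval x Δ ≠ 0 := by
  obtain ⟨x0, hx0⟩ := hne
  obtain ⟨ε, hε, hball⟩ := Metric.isOpen_iff.1 hW x0 hx0
  by_contra hcon
  push Not at hcon
  apply hΔ
  refine MvPolynomial.funext_set (fun i => Metric.ball (x0 i) ε) (fun i => ?_) fun x hx => ?_
  · exact infinite_of_mem_nhds (x0 i) (Metric.ball_mem_nhds _ hε)
  · rw [map_zero]
    refine hcon x (hball ?_)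
    rw [ball_pi x0 hε]
    exact hx

/-- the Hessian matrix -/
noncomputable def hess (F : MvPolynomial σ ℂ) (z : σ → ℂ) : Matrix σ σ ℂ :=
  Matrix.of fun v v' => eval z (pderiv v' (pderiv v F))

theorem hessND_iff [DecidableEq σ] (F : MvPolynomial σ ℂ) (z : σ → ℂ) :
    HessND F z ↔ (hess F z).det ≠ 0 := by
  rw [Ne, ← Matrix.exists_mulVec_eq_zero_iff]
  push Not
  constructor
  · intro h w hw h0
    refine hw (h w fun v => ?_)
    exact congrFun h0 v
  · intro h w hw
    by_contra h0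
    refine h w h0 (funext fun v => ?_)
    exact hw v

/-- the gradient map -/
noncomputable def gmap (F : MvPolynomial σ ℂ) (z : σ → ℂ) : σ → ℂ := fun v => eval z (pderiv v F)

theorem continuous_gmap (F : MvPolynomial σ ℂ) : Continuous (gmap F) :=
  continuous_pi fun v => MvPolynomial.continuous_eval (pderiv v F)

theorem gmap_strict (F : MvPolynomial σ ℂ) (z : σ → ℂ) : HasStrictFDerivAt (gmap F)
    (ContinuousLinearMap.pi fun v => iftD (pderiv v F) z) z := by
  rw [hasStrictFDerivAt_pi']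
  intro v
  rw [ContinuousLinearMap.proj_pi]
  exact ift_hasStrict (pderiv v F) z

theorem gmap_range [DecidableEq σ] {F : MvPolynomial σ ℂ} {z : σ → ℂ} (hz : (hess F z).det ≠ 0) :
    (ContinuousLinearMap.pi fun v => iftD (pderiv v F) z).range = ⊤ := by
  rw [LinearMap.range_eq_top]
  intro y
  have hunit : IsUnit (hess F z).det := isUnit_iff_ne_zero.2 hz
  refine ⟨(hess F z)⁻¹.mulVec y, ?_⟩
  have h2 : (hess F z).mulVec ((hess F z)⁻¹.mulVec y) = y := by
    rw [Matrix.mulVec_mulVec, Matrix.mul_nonsing_inv _ hunit, Matrix.one_mulVec]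
  conv_rhs => rw [← h2]
  funext v
  change iftD (pderiv v F) z _ = _
  rw [iftD_apply]
  rfl

theorem isOpen_image_gmap [DecidableEq σ] (F : MvPolynomial σ ℂ) {W : Set (σ → ℂ)}
    (hW : IsOpen W) (hW' : ∀ x ∈ W, (hess F x).det ≠ 0) : IsOpen (gmap F '' W) := by
  rw [isOpen_iff_mem_nhds]
  rintro _ ⟨x, hx, rfl⟩
  rw [← (gmap_strict F x).map_nhds_eq_of_surj (gmap_range (hW' x hx))]
  exact image_mem_map (hW.mem_nhds hx)

theorem continuous_hess_det [DecidableEq σ] (F : MvPolynomial σ ℂ) :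
    Continuous fun x => (hess F x).det :=
  Continuous.matrix_det (continuous_matrix fun _ _ => MvPolynomial.continuous_eval _)

/-- Points with a common gradient and nonsingular Hessian can be moved so that a given nonzero
polynomial does not vanish at them. -/
theorem move (F Δ : MvPolynomial σ ℂ) (hΔ : Δ ≠ 0) (Z : Finset (σ → ℂ)) (g0 : σ → ℂ)
    (hZ : ∀ z ∈ Z, (∀ v, eval z (pderiv v F) = g0 v) ∧ HessND F z) :
    ∃ (g : σ → ℂ) (Z' : Finset (σ → ℂ)), Z'.card = Z.card ∧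
      ∀ z ∈ Z', (∀ v, eval z (pderiv v F) = g v) ∧ HessND F z ∧ eval z Δ ≠ 0 := by
  classical
  obtain ⟨U, hU, hdisj⟩ := Z.finite_toSet.t2_separation
  set N : (σ → ℂ) → Set (σ → ℂ) := fun z => U z ∩ {x | (hess F x).det ≠ 0} with hN
  have hNo : ∀ z ∈ Z, IsOpen (N z) := fun z hz =>
    (hU z).2.inter (isOpen_ne_fun (continuous_hess_det F) continuous_const)
  have hNz : ∀ z ∈ Z, z ∈ N z := fun z hz => ⟨(hU z).1, (hessND_iff F z).1 (hZ z hz).2⟩
  set V0 : Set (σ → ℂ) := ⋂ z ∈ Z, gmap F '' N z with hV0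
  have hV0o : IsOpen V0 := isOpen_biInter_finset fun z hz =>
    isOpen_image_gmap F (hNo z hz) fun x hx => hx.2
  have hV0g : g0 ∈ V0 := by
    rw [hV0, Set.mem_iInter₂]
    intro z hz
    exact ⟨z, hNz z hz, funext (hZ z hz).1⟩
  have key : ∀ S ⊆ Z, ∃ V : Set (σ → ℂ), IsOpen V ∧ V.Nonempty ∧ V ⊆ V0 ∧
      ∀ g ∈ V, ∀ z ∈ S, ∃ x ∈ N z, gmap F x = g ∧ eval x Δ ≠ 0 := by
    intro S
    induction S using Finset.induction_on with
    | empty => exact fun _ => ⟨V0, hV0o, ⟨g0, hV0g⟩, le_rfl, fun g _ z hz => absurd hz (by simp)⟩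
    | insert z S hzS ih =>
      intro hS
      obtain ⟨V, hVo, ⟨g1, hg1⟩, hVV, hV⟩ := ih fun x hx => hS (Finset.mem_insert_of_mem hx)
      have hz : z ∈ Z := hS (Finset.mem_insert_self _ _)
      set W : Set (σ → ℂ) := N z ∩ gmap F ⁻¹' V with hW
      have hWo : IsOpen W := (hNo z hz).inter (hVo.preimage (continuous_gmap F))
      have hWne : W.Nonempty := by
        have := hVV hg1
        rw [hV0, Set.mem_iInter₂] at this
        obtain ⟨x, hx, hx2⟩ := this z hz
        exact ⟨x, hx, by rw [Set.mem_preimage, hx2]; exact hg1⟩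
      set W' : Set (σ → ℂ) := W ∩ {x | eval x Δ ≠ 0} with hW'
      have hW'o : IsOpen W' := hWo.inter
        (isOpen_ne_fun (MvPolynomial.continuous_eval Δ) continuous_const)
      obtain ⟨x0, hx0, hx0'⟩ := exists_ne_zero hΔ hWo hWne
      refine ⟨gmap F '' W', isOpen_image_gmap F hW'o fun x hx => hx.1.1.2,
        ⟨_, ⟨x0, ⟨hx0, hx0'⟩, rfl⟩⟩, ?_, ?_⟩
      · rintro _ ⟨x, hx, rfl⟩
        exact hVV hx.1.2
      · rintro _ ⟨x, hx, rfl⟩ z' hz'
        rcases Finset.mem_insert.1 hz' with rfl | hz'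
        · exact ⟨x, hx.1.1, rfl, hx.2⟩
        · exact hV _ hx.1.2 z' hz'
  obtain ⟨V, -, ⟨g, hg⟩, -, hV⟩ := key Z (Finset.Subset.refl _)
  have h1 := hV g hg
  choose! x hx1 hx2 hx3 using h1
  refine ⟨g, Z.image x, ?_, ?_⟩
  · refine Finset.card_image_of_injOn ?_
    intro z hz w hw hzw
    by_contra hne
    have h2 := hdisj hz hw hne
    exact (Set.disjoint_left.1 h2 (hx1 z hz).1) (by rw [hzw]; exact (hx1 w hw).1)
  · intro y hy
    obtain ⟨z, hz, rfl⟩ := Finset.mem_image.1 hy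
    exact ⟨fun v => congrFun (hx2 z hz) v, (hessND_iff F _).2 (hx1 z hz).2, hx3 z hz⟩

end Pool.Agent.Helper40.FD
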