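import Pool.Agent.Helper40.FD.Bound
import Pool.Agent.Helper40.FD.Move
import Pool.Agent.Helper40.FD.Indep

/-!
# Number of critical points of a function of determinants
-/

set_option autoImplicit false
set_option linter.unusedSectionVars false

namespace Pool.Agent.Helper40.FD

open MvPolynomial Matrix

theorem totalDegree_pderiv_le {K σ : Type*} [CommSemiring K] (v : σ) (f : MvPolynomial σ K) :
    (pderiv v f).totalDegree ≤ f.totalDegree := by
  classical
  conv_lhs => rw [f.as_sum]
  rw [map_sum]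
  refine totalDegree_finsetSum_le fun s hs => ?_
  rw [pderiv_monomial]
  by_cases h : f.coeff s * (s v : K) = 0
  · rw [h, monomial_zero, totalDegree_zero]
    exact Nat.zero_le _
  · refine (totalDegree_monomial_le _ _).trans ?_
    refine le_trans ?_ (le_totalDegree hs)
    rw [Finsupp.sum, Finsupp.sum]
    refine le_trans (Finset.sum_le_sum fun i _ => ?_) (Finset.sum_le_sum_of_subset
      (f := fun i => s i) (Finsupp.support_mono tsub_le_self))
    rw [Finsupp.tsub_apply]
    exact Nat.sub_le _ _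

/-- The counting inequality. -/
theorem fd_count {σ R : Type} [Fintype σ] [DecidableEq σ] [Fintype R] [DecidableEq R]
    {μ : R → Type} [∀ i, Fintype (μ i)] [∀ i, DecidableEq (μ i)]
    (A : ∀ i, Matrix (μ i) (μ i) (MvPolynomial σ ℂ)) (F : MvPolynomial σ ℂ) {k D : ℕ}
    (hA : ∀ i a b, (A i a b).totalDegree ≤ k) (hF : F.totalDegree ≤ D)
    (hfun : ∀ x y : σ → ℂ, (∀ i, eval x (A i).det = eval y (A i).det) → eval x F = eval y F)
    (Z : Finset (σ → ℂ)) (g0 : σ → ℂ)
    (hZ : ∀ z ∈ Z, (∀ v, eval z (pderiv v F) = g0 v) ∧ HessND F z) :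
    ∃ ρ M : ℕ, ρ ≤ Fintype.card R ∧ ρ ≤ M ∧ ρ ≤ Fintype.card σ ∧
      M ≤ ∑ i, Fintype.card (μ i) ^ 2 ∧ ∀ α β γ : ℕ,
      Z.card * (α ^ M * β ^ Fintype.card σ * γ ^ ρ) *
        ((Fintype.card σ).factorial * (M + ρ).factorial) ≤
      (M.factorial * (Fintype.card σ).factorial * ρ.factorial) *
      ((k * α + k * β + D * γ) ^ Fintype.card σ * (α + 2 * β) ^ (M + ρ)) := by
  classical
  obtain ⟨ρ, s, V0, c, hs, hV, hm, hspan⟩ := exists_minor (fun i => (A i).det) F hfun
  -- the matrices are nonempty and their determinants nonzero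
  have hnc : ∀ j (a : ℂ), (A (s j)).det ≠ C a := by
    intro j a h
    apply hm
    refine Matrix.det_eq_zero_of_column_eq_zero j fun i => ?_
    simp only [mnr, Matrix.of_apply]
    rw [h, pderiv_C]
  have hne : ∀ j, (A (s j)).det ≠ 0 := by
    intro j h
    exact hnc j 0 (by rw [h, C_0])
  have hpos : ∀ j, 1 ≤ Fintype.card (μ (s j)) := by
    intro j
    by_contra h
    have h0 : Fintype.card (μ (s j)) = 0 := by omega
    have : IsEmpty (μ (s j)) := Fintype.card_eq_zero_iff.1 h0
    exact hnc j 1 (by rw [Matrix.det_isEmpty, C_1])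
  -- general position
  obtain ⟨g, Z', hcard, hZ'⟩ := move F ((mnr (fun i => (A i).det) s V0).det *
    ∏ j, (A (s j)).det) (mul_ne_zero hm (Finset.prod_ne_zero_iff.2 fun j _ => hne j)) Z g0 hZ
  have hM : Fintype.card (Σ j : Fin ρ, μ (s j) × μ (s j)) =
      ∑ j : Fin ρ, Fintype.card (μ (s j)) ^ 2 := by
    rw [Fintype.card_sigma]
    exact Finset.sum_congr rfl fun j _ => by rw [Fintype.card_prod, sq]
  refine ⟨ρ, Fintype.card (Σ j : Fin ρ, μ (s j) × μ (s j)), ?_, ?_, ?_, ?_, fun α β γ => ?_⟩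
  · have := Fintype.card_le_of_injective s hs
    rwa [Fintype.card_fin] at this
  · rw [hM]
    have : ∑ _j : Fin ρ, 1 ≤ ∑ j : Fin ρ, Fintype.card (μ (s j)) ^ 2 :=
      Finset.sum_le_sum fun j _ => Nat.one_le_pow _ _ (hpos j)
    simpa using this
  · have := Fintype.card_le_of_injective V0 hV
    rwa [Fintype.card_fin] at this
  · rw [hM]
    have h1 : ∑ j : Fin ρ, Fintype.card (μ (s j)) ^ 2 =
        ∑ i ∈ Finset.univ.image s, Fintype.card (μ i) ^ 2 := by
      rw [Finset.sum_image fun a _ b _ h => hs h]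
    rw [h1]
    exact Finset.sum_le_sum_of_subset (Finset.subset_univ _)
  · have h := fd_bez (K := ℂ) (σ := σ) (S := Fin ρ) (μ := fun j => μ (s j)) (fun j => A (s j)) F V0
      g (k := k) (D := D) (fun j a b => hA (s j) a b)
      (fun v j a b => (totalDegree_pderiv_le v _).trans (hA (s j) a b))
      (fun v => (totalDegree_pderiv_le v _).trans hF)
      (mnr (fun i => (A i).det) s V0).det c hspan (ι := Z') (fun z => (z : σ → ℂ))
      Subtype.val_injective (fun z v => (hZ' z z.2).1 v) (fun z => (hZ' z z.2).2.1)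
      (fun z j => ?_) (fun z => ?_) (fun z => ?_) α β γ
    · rw [Fintype.card_coe, hcard, Fintype.card_fin] at h
      exact h
    · have h1 := (hZ' z z.2).2.2
      rw [map_mul, map_prod] at h1
      exact (Finset.prod_ne_zero_iff.1 (right_ne_zero_of_mul h1)) j (Finset.mem_univ _)
    · have h1 := (hZ' z z.2).2.2
      rw [map_mul] at h1
      exact left_ne_zero_of_mul h1
    · have h1 := (hZ' z z.2).2.2
      rw [map_mul, eval_mnr] at h1
      exact left_ne_zero_of_mul h1

end Pool.Agent.Helper40.FD
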