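import Pool.Agent.Helper40.CB.Crit0
import Pool.Agent.Helper40.FD.Move

/-!
# Points with a common gradient for a sum of elementary symmetric polynomials
-/

set_option autoImplicit false
set_option linter.unusedSectionVars false

namespace Pool.Agent.Helper40.FD

open MvPolynomial Finset Pool.Agent.Helper40.CB Pool.Agent.Helper24.SQ

section crit

variable {Z J : Type} [Fintype Z] [Fintype J] [DecidableEq J] [DecidableEq Z] {d : ℕ}

/-- the separable polynomial -/
noncomputable def F1 (d : ℕ) (Z J : Type) [Fintype Z] [Fintype J] [DecidableEq J] :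
    MvPolynomial (Z × J) ℂ :=
  ∑ z : Z, esy ℂ (fun l : J => (z, l)) (d + 1) univ

theorem pinj (z : Z) : Function.Injective fun l : J => (z, l) := fun _ _ h => (Prod.mk.inj h).2

theorem pderiv_F1 (z : Z) (l : J) : pderiv (z, l) (F1 d Z J) =
    esy ℂ (fun l : J => (z, l)) d (univ.erase l) := by
  unfold F1
  rw [map_sum, Finset.sum_eq_single z]
  · exact pderiv_esy (pinj z) d (mem_univ l)
  · intro z' _ hz'
    refine pderiv_esy_of_ne _ _ _ _ fun l' _ h => hz' ?_
    exact (Prod.mk.inj h).1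
  · simp

theorem pderiv_pderiv_F1 (hd : 1 ≤ d) (z z' : Z) (l l' : J) :
    pderiv (z', l') (pderiv (z, l) (F1 d Z J)) =
      if z' = z ∧ l' ≠ l then
        esy ℂ (fun l : J => (z, l)) (d - 1) ((univ.erase l).erase l')
      else 0 := by
  obtain ⟨k, rfl⟩ : ∃ k, d = k + 1 := ⟨d - 1, by omega⟩
  rw [pderiv_F1, Nat.add_sub_cancel]
  split_ifs with h
  · obtain ⟨rfl, h⟩ := h
    exact pderiv_esy (pinj z') k (mem_erase.2 ⟨h, mem_univ _⟩)
  · refine pderiv_esy_of_ne _ _ _ _ fun l'' hl'' h' => h ?_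
    obtain ⟨h1, h2⟩ := Prod.mk.inj h'
    subst h1 h2
    exact ⟨rfl, ne_of_mem_erase hl''⟩

/-- the points -/
noncomputable def pt1 (e : J ≃ CB.JJ d) (ζ : ℂ) (σ : Z → Fin 2 → Equiv.Perm (Fin d)) :
    Z × J → ℂ := fun v => yrow e ζ (σ v.1) v.2

theorem grad_pt1 (e : J ≃ CB.JJ d) (hd : 2 ≤ d) {ζ : ℂ} (hζ : IsPrimitiveRoot ζ d)
    (σ : Z → Fin 2 → Equiv.Perm (Fin d)) (v : Z × J) :
    eval (pt1 e ζ σ) (pderiv v (F1 d Z J)) = (-1) ^ (d + 1) := by
  obtain ⟨z, l⟩ := v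
  rw [pderiv_F1, eval_esy]
  exact CB.esymm_erase e hd hζ (σ z) l

theorem hess_pt1 (e : J ≃ CB.JJ d) (hd : 2 ≤ d) {ζ : ℂ} (hζ : IsPrimitiveRoot ζ d)
    (σ : Z → Fin 2 → Equiv.Perm (Fin d)) : HessND (F1 d Z J) (pt1 e ζ σ) := by
  have hdK : (d : ℂ) ≠ 0 := by
    exact_mod_cast (by omega : d ≠ 0)
  intro w hw
  have h1 : ∀ z l l', l' ≠ l → yrow e ζ (σ z) l' = yrow e ζ (σ z) l →
      (∀ l'' : J, l'' ≠ l → yrow e ζ (σ z) l'' = yrow e ζ (σ z) l → l'' = l') →
      w (z, l') = 0 := by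
    intro z l l' hne heq huniq
    have h2 := hw (z, l)
    rw [Finset.sum_eq_single (z, l')] at h2
    · rw [pderiv_pderiv_F1 (by omega), if_pos ⟨rfl, hne⟩, eval_esy] at h2
      change (∑ T ∈ powersetCard (d - 1) ((univ.erase l).erase l'),
        ∏ l ∈ T, yrow e ζ (σ z) l) * _ = 0 at h2
      rw [esymm_erase_erase_eq e hd hζ (σ z) hne.symm heq.symm] at h2
      refine (mul_eq_zero.1 h2).resolve_left ?_
      exact mul_ne_zero (mul_ne_zero (pow_ne_zero _ (neg_ne_zero.2 one_ne_zero)) hdK)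
        (pow_ne_zero _ (CB.yrow_ne_zero e hζ (σ z) l))
    · rintro ⟨z', l''⟩ _ hne'
      rw [pderiv_pderiv_F1 (by omega)]
      split_ifs with h3
      · obtain ⟨rfl, h3⟩ := h3
        rw [eval_esy]
        change (∑ T ∈ powersetCard (d - 1) ((univ.erase l).erase l''),
          ∏ l ∈ T, yrow e ζ (σ z') l) * _ = 0
        rw [esymm_erase_erase_ne e hd hζ (σ z') h3.symm, zero_mul]
        intro h4
        exact hne' (by rw [huniq l'' h3 h4.symm])
      · rw [map_zero, zero_mul]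
    · simp
  funext v
  obtain ⟨z, l⟩ := v
  obtain ⟨l', h2, h3, h4⟩ := CB.yrow_partner e hζ (σ z) l
  refine h1 z l' l h2.symm h3.symm ?_
  intro l'' h5 h6
  by_contra h7
  exact h5 (h4 l'' h7 (h6.trans h3))

theorem pt1_injective (e : J ≃ CB.JJ d) {ζ : ℂ} (hζ : IsPrimitiveRoot ζ d) :
    Function.Injective (fun σ : Z → Fin 2 → Equiv.Perm (Fin d) => pt1 e ζ σ) := by
  intro σ σ' h
  funext z
  refine CB.yrow_injective e hζ ?_
  funext l
  exact congrFun h (z, l)

theorem exists_grad1 (hJ : Fintype.card J = 2 * d) (hd : 2 ≤ d) :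
    ∃ S : Finset (Z × J → ℂ), (∀ p ∈ S, (∀ v, eval p (pderiv v (F1 d Z J)) = (-1) ^ (d + 1)) ∧
      HessND (F1 d Z J) p) ∧ S.card = (d.factorial) ^ (2 * Fintype.card Z) := by
  classical
  have hζ := Complex.isPrimitiveRoot_exp d (by omega)
  set ζ := Complex.exp (2 * Real.pi * Complex.I / d)
  have e : J ≃ CB.JJ d := Fintype.equivOfCardEq (by simp [hJ])
  refine ⟨univ.image fun σ : Z → Fin 2 → Equiv.Perm (Fin d) => pt1 e ζ σ, ?_, ?_⟩
  · intro p hp
    obtain ⟨σ, _, rfl⟩ := Finset.mem_image.1 hp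
    exact ⟨grad_pt1 e hd hζ σ, hess_pt1 e hd hζ σ⟩
  · rw [Finset.card_image_of_injective _ (pt1_injective e hζ), card_univ, Fintype.card_fun,
      Fintype.card_fun, Fintype.card_fin, Fintype.card_perm, Fintype.card_fin, ← pow_mul]

end crit

/-! ### persistence -/

/-- Points with a common gradient and nonsingular Hessian persist under small perturbations. -/
theorem grad_persist {ι κ : Type} [Fintype ι] [Fintype κ] (F : MvPolynomial ι ℂ)
    (G : κ → MvPolynomial ι ℂ) (g : ι → ℂ) (Z : Finset (ι → ℂ))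
    (hZ : ∀ z ∈ Z, (∀ v, eval z (pderiv v F) = g v) ∧ HessND F z) :
    ∃ ε : ℝ, 0 < ε ∧ ∀ t : κ → ℂ, (∀ k, ‖t k‖ < ε) → ∃ Z' : Finset (ι → ℂ),
      Z'.card = Z.card ∧ ∀ z ∈ Z', (∀ v, eval z (pderiv v (F + ∑ k, t k • G k)) = g v) ∧
        HessND (F + ∑ k, t k • G k) z := by
  obtain ⟨ε, hε, H⟩ := persist (σ := ι) (τ := ι) rfl (fun v => pderiv v F - C (g v))
    (fun (k : κ) v => pderiv v (G k)) Z (by
      intro z hz
      obtain ⟨h1, h2⟩ := hZ z hz
      refine ⟨fun v => ?_, fun w hw => h2 w fun v => ?_⟩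
      · rw [map_sub, eval_C, h1, sub_self]
      · rw [← hw v]
        refine Finset.sum_congr rfl fun v' _ => ?_
        rw [map_sub, pderiv_C, sub_zero])
  refine ⟨ε, hε, fun t ht => ?_⟩
  obtain ⟨Z', hcard, hZ'⟩ := H t ht
  refine ⟨Z', hcard, fun z hz => ?_⟩
  obtain ⟨h1, h2⟩ := hZ' z hz
  have e1 : ∀ v, pderiv v (F + ∑ k, t k • G k) = pderiv v F + ∑ k, t k • pderiv v (G k) := by
    intro v
    rw [map_add, map_sum]
    congr 1
    exact Finset.sum_congr rfl fun k _ => Derivation.map_smul _ _ _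
  refine ⟨fun v => ?_, fun w hw => h2 w fun v => ?_⟩
  · have := h1 v
    rw [map_add, map_sub, eval_C] at this
    rw [e1, map_add]
    linear_combination this
  · rw [← hw v]
    refine Finset.sum_congr rfl fun v' _ => ?_
    rw [e1, map_add, map_sub, pderiv_C, sub_zero, map_add (pderiv v')]

end Pool.Agent.Helper40.FD
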