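import Mathlib

/-!
# Numerical consequences of the counting inequality
-/

set_option autoImplicit false

namespace Pool.Agent.Helper40.FD

open Real

theorem num1 {Z N M ρ k D : ℕ} (hN : 1 ≤ N) (hk : 1 ≤ k) (hD : 1 ≤ D) (hρM : ρ ≤ M)
    (hρN : ρ ≤ N)
    (h : ∀ α β γ : ℕ, Z * (α ^ M * β ^ N * γ ^ ρ) * (N.factorial * (M + ρ).factorial) ≤
      (M.factorial * N.factorial * ρ.factorial) *
      ((k * α + k * β + D * γ) ^ N * (α + 2 * β) ^ (M + ρ))) :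
    (Z : ℝ) ≤ (3 * Real.exp 3) ^ N * (D : ℝ) ^ ρ *
      ((k : ℝ) * ((M : ℝ) + N) / N) ^ (N - ρ) := by
  have hNp : (0 : ℝ) < N := by exact_mod_cast hN
  have hkp : (0 : ℝ) < k := by exact_mod_cast hk
  have hDp : (0 : ℝ) < D := by exact_mod_cast hD
  have hMN : (0 : ℝ) < (M : ℝ) + N := by positivity
  have h1 := h (D * (M + N)) (D * N) (k * (M + N))
  have h2 : (Z : ℝ) * ((D * ((M : ℝ) + N)) ^ M * (D * (N : ℝ)) ^ N * (k * ((M : ℝ) + N)) ^ ρ) *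
      ((N.factorial : ℝ) * ((M + ρ).factorial : ℝ)) ≤
      ((M.factorial : ℝ) * N.factorial * ρ.factorial) *
      ((k * (D * ((M : ℝ) + N)) + k * (D * (N : ℝ)) + D * (k * ((M : ℝ) + N))) ^ N *
        (D * ((M : ℝ) + N) + 2 * (D * (N : ℝ))) ^ (M + ρ)) := by
    exact_mod_cast h1
  -- binomial coefficient
  have hch : ((M : ℝ) + 1) ^ ρ * (M.factorial : ℝ) ≤ ((M + ρ).factorial : ℝ) := by
    have h3 := Nat.factorial_mul_pow_le_factorial (m := M) (n := ρ)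
    have h4 : ((M.factorial * (M + 1) ^ ρ : ℕ) : ℝ) ≤ ((M + ρ).factorial : ℝ) := by
      exact_mod_cast h3
    push_cast at h4
    linarith
  have hρ : (ρ.factorial : ℝ) ≤ (N : ℝ) ^ ρ := by
    have h3 : ρ.factorial ≤ ρ ^ ρ := Nat.factorial_le_pow ρ
    have h4 : ρ ^ ρ ≤ N ^ ρ := Nat.pow_le_pow_left hρN ρ
    exact_mod_cast h3.trans h4
  -- first factor
  have hA : (k * (D * ((M : ℝ) + N)) + k * (D * (N : ℝ)) + D * (k * ((M : ℝ) + N))) ^ N ≤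
      (3 * (k * (D * ((M : ℝ) + N)))) ^ N := by
    refine pow_le_pow_left₀ (by positivity) ?_ _
    have : (k : ℝ) * (D * (N : ℝ)) ≤ k * (D * ((M : ℝ) + N)) := by
      have : (0 : ℝ) ≤ M := Nat.cast_nonneg _
      gcongr
      linarith
    nlinarith
  -- second factor
  have hB : (D * ((M : ℝ) + N) + 2 * (D * (N : ℝ))) ^ (M + ρ) ≤
      (D * ((M : ℝ) + N)) ^ (M + ρ) * Real.exp 2 ^ N := by
    have e1 : D * ((M : ℝ) + N) + 2 * (D * (N : ℝ)) =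
        D * ((M : ℝ) + N) * (1 + 2 * N / ((M : ℝ) + N)) := by
      field_simp
    rw [e1, mul_pow]
    refine mul_le_mul_of_nonneg_left ?_ (by positivity)
    have e2 : 1 + 2 * (N : ℝ) / ((M : ℝ) + N) ≤ Real.exp (2 * N / ((M : ℝ) + N)) := by
      have := Real.add_one_le_exp (2 * (N : ℝ) / ((M : ℝ) + N))
      linarith
    calc (1 + 2 * (N : ℝ) / ((M : ℝ) + N)) ^ (M + ρ)
        ≤ (Real.exp (2 * N / ((M : ℝ) + N))) ^ (M + ρ) := by gcongr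
      _ = Real.exp ((M + ρ : ℕ) * (2 * N / ((M : ℝ) + N))) := by rw [← Real.exp_nat_mul]
      _ ≤ Real.exp (N * 2) := by
        apply Real.exp_le_exp.2
        rw [mul_div_assoc', div_le_iff₀ hMN]
        push_cast
        have : (ρ : ℝ) ≤ N := by exact_mod_cast hρN
        nlinarith
      _ = Real.exp 2 ^ N := by rw [← Real.exp_nat_mul]
  -- third factor
  have hC : (((M : ℝ) + N) / ((M : ℝ) + 1)) ^ ρ ≤ Real.exp 1 ^ N := by
    have hM1 : (0 : ℝ) < (M : ℝ) + 1 := by positivity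
    have e2 : ((M : ℝ) + N) / ((M : ℝ) + 1) ≤ Real.exp ((N : ℝ) / ((M : ℝ) + 1)) := by
      have := Real.add_one_le_exp ((N : ℝ) / ((M : ℝ) + 1))
      refine le_trans ?_ this
      rw [div_add_one hM1.ne', div_le_div_iff_of_pos_right hM1]
      linarith
    calc (((M : ℝ) + N) / ((M : ℝ) + 1)) ^ ρ ≤ (Real.exp ((N : ℝ) / ((M : ℝ) + 1))) ^ ρ := by
          gcongr
      _ = Real.exp (ρ * ((N : ℝ) / ((M : ℝ) + 1))) := by rw [← Real.exp_nat_mul]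
      _ ≤ Real.exp N := by
        apply Real.exp_le_exp.2
        rw [mul_div_assoc', div_le_iff₀ hM1]
        have : (ρ : ℝ) ≤ M := by exact_mod_cast hρM
        nlinarith
      _ = Real.exp 1 ^ N := by rw [← Real.exp_nat_mul, mul_one]
  -- put together
  have hfac : (0 : ℝ) < (N.factorial : ℝ) := by positivity
  have hfacM : (0 : ℝ) < (M.factorial : ℝ) := by positivity
  set a : ℝ := D * ((M : ℝ) + N) with ha
  have hap : 0 < a := by positivity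
  have h5 : (Z : ℝ) * (a ^ M * (D * (N : ℝ)) ^ N * (k * ((M : ℝ) + N)) ^ ρ) *
      (((M : ℝ) + 1) ^ ρ * (N.factorial * M.factorial)) ≤
      ((N : ℝ) ^ ρ * ((3 * (k * a)) ^ N * (a ^ (M + ρ) * Real.exp 2 ^ N))) *
        (N.factorial * M.factorial) := by
    calc (Z : ℝ) * (a ^ M * (D * (N : ℝ)) ^ N * (k * ((M : ℝ) + N)) ^ ρ) *
          (((M : ℝ) + 1) ^ ρ * (N.factorial * M.factorial))
        = (Z : ℝ) * (a ^ M * (D * (N : ℝ)) ^ N * (k * ((M : ℝ) + N)) ^ ρ) *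
          ((N.factorial : ℝ) * (((M : ℝ) + 1) ^ ρ * M.factorial)) := by ring
      _ ≤ (Z : ℝ) * (a ^ M * (D * (N : ℝ)) ^ N * (k * ((M : ℝ) + N)) ^ ρ) *
          ((N.factorial : ℝ) * ((M + ρ).factorial : ℝ)) := by gcongr
      _ ≤ _ := h2
      _ ≤ ((M.factorial : ℝ) * N.factorial * (N : ℝ) ^ ρ) *
          ((3 * (k * a)) ^ N * (a ^ (M + ρ) * Real.exp 2 ^ N)) := by
        refine mul_le_mul ?_ ?_ (by positivity) (by positivity)
        · gcongr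
        · exact mul_le_mul hA hB (by positivity) (by positivity)
      _ = _ := by ring
  have h6 : (Z : ℝ) * (a ^ M * (D * (N : ℝ)) ^ N * (k * ((M : ℝ) + N)) ^ ρ) *
      ((M : ℝ) + 1) ^ ρ ≤
      (N : ℝ) ^ ρ * ((3 * (k * a)) ^ N * (a ^ (M + ρ) * Real.exp 2 ^ N)) := by
    refine le_of_mul_le_mul_right ?_ (by positivity : (0 : ℝ) < N.factorial * M.factorial)
    linarith [h5]
  -- isolate `Z`
  have hM1 : (0 : ℝ) < (M : ℝ) + 1 := by positivity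
  have hNρ : N = (N - ρ) + ρ := by omega
  have h7 : (Z : ℝ) ≤ (3 * Real.exp 2) ^ N * (D : ℝ) ^ ρ *
      ((k : ℝ) * ((M : ℝ) + N) / N) ^ (N - ρ) * (((M : ℝ) + N) / ((M : ℝ) + 1)) ^ ρ := by
    have hden : (0 : ℝ) < (a ^ M * (D * (N : ℝ)) ^ N * (k * ((M : ℝ) + N)) ^ ρ) *
      ((M : ℝ) + 1) ^ ρ := by positivity
    rw [mul_assoc] at h6
    refine le_of_mul_le_mul_right (h6.trans (le_of_eq ?_)) hden
    have e1 : (3 * Real.exp 2) ^ N = 3 ^ N * Real.exp 2 ^ N := mul_pow _ _ _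
    have e2 : (3 * (k * a)) ^ N = 3 ^ N * (k * a) ^ N := mul_pow _ _ _
    have e3 : ((k : ℝ) * ((M : ℝ) + N) / N) ^ (N - ρ) * (k * ((M : ℝ) + N)) ^ ρ *
        (D * (N : ℝ)) ^ N = (k * a) ^ N * N ^ ρ := by
      rw [ha, div_pow]
      have e4 : (D * (N : ℝ)) ^ N = (D : ℝ) ^ N * ((N : ℝ) ^ (N - ρ) * N ^ ρ) := by
        rw [mul_pow, ← pow_add, ← hNρ]
      have e5 : ((k : ℝ) * (D * ((M : ℝ) + N))) ^ N =
          D ^ N * (((k : ℝ) * ((M : ℝ) + N)) ^ (N - ρ) * ((k : ℝ) * ((M : ℝ) + N)) ^ ρ) := by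
        rw [← pow_add, ← hNρ, ← mul_pow]
        congr 1
        ring
      rw [e4, e5]
      have hne : (N : ℝ) ^ (N - ρ) ≠ 0 := by positivity
      field_simp
    have e6 : a ^ (M + ρ) = a ^ M * ((D : ℝ) ^ ρ * ((M : ℝ) + N) ^ ρ) := by
      rw [pow_add, ← mul_pow]
    have e7 : (((M : ℝ) + N) / ((M : ℝ) + 1)) ^ ρ * ((M : ℝ) + 1) ^ ρ = ((M : ℝ) + N) ^ ρ := by
      rw [← mul_pow, div_mul_cancel₀ _ hM1.ne']
    rw [e1, e2, e6]
    calc (N : ℝ) ^ ρ * (3 ^ N * (k * a) ^ N * (a ^ M * ((D : ℝ) ^ ρ * ((M : ℝ) + N) ^ ρ) *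
          Real.exp 2 ^ N))
        = ((k * a) ^ N * N ^ ρ) * ((M : ℝ) + N) ^ ρ *
          (3 ^ N * Real.exp 2 ^ N * (D : ℝ) ^ ρ * a ^ M) := by ring
      _ = (((k : ℝ) * ((M : ℝ) + N) / N) ^ (N - ρ) * (k * ((M : ℝ) + N)) ^ ρ *
        (D * (N : ℝ)) ^ N) * ((((M : ℝ) + N) / ((M : ℝ) + 1)) ^ ρ * ((M : ℝ) + 1) ^ ρ) *
          (3 ^ N * Real.exp 2 ^ N * (D : ℝ) ^ ρ * a ^ M) := by rw [e3, e7]
      _ = _ := by ring
  refine h7.trans ?_
  calc (3 * Real.exp 2) ^ N * (D : ℝ) ^ ρ * ((k : ℝ) * ((M : ℝ) + N) / N) ^ (N - ρ) *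
        (((M : ℝ) + N) / ((M : ℝ) + 1)) ^ ρ
      ≤ (3 * Real.exp 2) ^ N * (D : ℝ) ^ ρ * ((k : ℝ) * ((M : ℝ) + N) / N) ^ (N - ρ) *
        Real.exp 1 ^ N := by gcongr
    _ = (3 * Real.exp 3) ^ N * (D : ℝ) ^ ρ * ((k : ℝ) * ((M : ℝ) + N) / N) ^ (N - ρ) := by
      have : (3 * Real.exp 3) ^ N = (3 * Real.exp 2) ^ N * Real.exp 1 ^ N := by
        rw [← mul_pow, mul_assoc, ← Real.exp_add]
        norm_num
      rw [this]
      ring

end Pool.Agent.Helper40.FD
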