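import Pool.Agent.Helper40.FD.Gadget
import Pool.Agent.Helper40.FD.Count
import Pool.Agent.Helper40.FD.Num

/-!
# Functions of few determinants: the lower bound
-/

set_option autoImplicit false

namespace Pool.Agent.Helper40.FD

open MvPolynomial Finset Pool.Agent.Helper24.SQ

theorem exists_params {n : ℕ} (hn : 5616 ≤ n) :
    ∃ M d : ℕ, M ^ 3 = 2 * d ∧ 2 ≤ d ∧ 702 * M ^ 3 ≤ n ∧ n ≤ 5616 * (2 * d) := by
  classical
  set L := Nat.findGreatest (fun L => 5616 * L ^ 3 ≤ n) n with hL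
  have h1 : 1 ≤ L := Nat.le_findGreatest (P := fun L => 5616 * L ^ 3 ≤ n) (by omega) (by simpa using hn)
  have h2 : 5616 * L ^ 3 ≤ n :=
    Nat.findGreatest_spec (P := fun L => 5616 * L ^ 3 ≤ n) (m := 1) (n := n) (by omega)
      (by simpa using hn)
  have h3 : n < 5616 * (L + 1) ^ 3 := by
    by_contra h
    push Not at h
    have h4 : L + 1 ≤ n := by
      have : L + 1 ≤ (L + 1) ^ 3 := Nat.le_self_pow (by norm_num) _
      omega
    have := Nat.le_findGreatest (P := fun L => 5616 * L ^ 3 ≤ n) h4 h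
    omega
  refine ⟨2 * L, 4 * L ^ 3, by ring, ?_, ?_, ?_⟩
  · have : 1 ≤ L ^ 3 := Nat.one_le_pow _ _ h1
    omega
  · calc 702 * (2 * L) ^ 3 = 5616 * L ^ 3 := by ring
      _ ≤ n := h2
  · have h5 : (L + 1) ^ 3 ≤ (2 * L) ^ 3 := Nat.pow_le_pow_left (by omega) 3
    calc n ≤ 5616 * (L + 1) ^ 3 := h3.le
      _ ≤ 5616 * (2 * L) ^ 3 := Nat.mul_le_mul_left _ h5
      _ = 5616 * (2 * (4 * L ^ 3)) := by ring

/-- The constant. -/
noncomputable def W : ℝ := 11232 * Real.exp 1 * (3 * Real.exp 3)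

theorem one_le_W : 1 ≤ W := by
  unfold W
  have h1 : 1 ≤ Real.exp 1 := Real.one_le_exp (by norm_num)
  have h3 : 1 ≤ Real.exp 3 := Real.one_le_exp (by norm_num)
  nlinarith [mul_le_mul h1 h3 (by norm_num) (by linarith)]

/-- The final numerical step. -/
theorem num_final {n d k ρ M N : ℕ} (hN : N = (2 * d) ^ 2) (hd : 1 ≤ d) (hn : 1 ≤ n)
    (hnd : n ≤ 5616 * (2 * d)) (hρ : 2 * ρ ≤ N) (hk : 2 * W ^ 2 * k ≤ n)
    (h : ((d.factorial ^ (2 * (2 * d)) : ℕ) : ℝ) ≤ (3 * Real.exp 3) ^ N * (n : ℝ) ^ ρ *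
      ((k : ℝ) * ((M : ℝ) + N) / N) ^ (N - ρ)) :
    (n : ℝ) ^ 3 ≤ 2 * W ^ 2 * 5616 ^ 2 * k * M := by
  have hdp : (0 : ℝ) < d := by exact_mod_cast hd
  have hnp : (0 : ℝ) < n := by exact_mod_cast hn
  have hNpos : 1 ≤ N := by
    rw [hN]
    exact Nat.one_le_pow _ _ (by omega)
  have hNp : (0 : ℝ) < N := by exact_mod_cast hNpos
  have hW := one_le_W
  set Q : ℝ := (k : ℝ) * ((M : ℝ) + N) / N with hQ
  have hQ0 : 0 ≤ Q := by positivity
  -- Stirling
  have hst : (d : ℝ) ^ N ≤ ((d.factorial ^ (2 * (2 * d)) : ℕ) : ℝ) * Real.exp 1 ^ N := by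
    have h1 := Real.pow_div_factorial_le_exp (d : ℝ) hdp.le d
    have h2 : (d : ℝ) ^ d ≤ d.factorial * Real.exp 1 ^ d := by
      rw [div_le_iff₀ (by exact_mod_cast Nat.factorial_pos d)] at h1
      calc (d : ℝ) ^ d ≤ Real.exp d * d.factorial := h1
        _ = d.factorial * Real.exp 1 ^ d := by
          rw [← Real.exp_nat_mul, mul_one, mul_comm]
    calc (d : ℝ) ^ N = ((d : ℝ) ^ d) ^ (2 * (2 * d)) := by
          rw [← pow_mul, hN]
          congr 1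
          ring
      _ ≤ (d.factorial * Real.exp 1 ^ d) ^ (2 * (2 * d)) := by gcongr
      _ = _ := by
          rw [mul_pow, ← pow_mul, hN]
          push_cast
          congr 2
          ring
  have h1 : (n : ℝ) ^ N ≤ W ^ N * (n : ℝ) ^ ρ * Q ^ (N - ρ) := by
    have h2 : (n : ℝ) ≤ 11232 * d := by
      have : (n : ℝ) ≤ 5616 * (2 * d) := by exact_mod_cast hnd
      linarith
    calc (n : ℝ) ^ N ≤ (11232 * d) ^ N := by gcongr
      _ = 11232 ^ N * (d : ℝ) ^ N := by rw [mul_pow]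
      _ ≤ 11232 ^ N * (((d.factorial ^ (2 * (2 * d)) : ℕ) : ℝ) * Real.exp 1 ^ N) := by gcongr
      _ ≤ 11232 ^ N * (((3 * Real.exp 3) ^ N * (n : ℝ) ^ ρ * Q ^ (N - ρ)) *
          Real.exp 1 ^ N) := by gcongr
      _ = W ^ N * (n : ℝ) ^ ρ * Q ^ (N - ρ) := by
          unfold W
          rw [mul_pow, mul_pow, mul_pow]
          ring
  have hρN : ρ + (N - ρ) = N := by omega
  have h2 : (n : ℝ) ^ (N - ρ) ≤ W ^ N * Q ^ (N - ρ) := by
    have h3 : (n : ℝ) ^ ρ * (n : ℝ) ^ (N - ρ) ≤ (n : ℝ) ^ ρ * (W ^ N * Q ^ (N - ρ)) := by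
      rw [← pow_add, hρN]
      calc (n : ℝ) ^ N ≤ W ^ N * (n : ℝ) ^ ρ * Q ^ (N - ρ) := h1
        _ = _ := by ring
    exact le_of_mul_le_mul_left h3 (by positivity)
  have h3 : (n : ℝ) ^ (N - ρ) ≤ (W ^ 2 * Q) ^ (N - ρ) := by
    calc (n : ℝ) ^ (N - ρ) ≤ W ^ N * Q ^ (N - ρ) := h2
      _ ≤ W ^ (2 * (N - ρ)) * Q ^ (N - ρ) := by
          gcongr
          omega
      _ = (W ^ 2 * Q) ^ (N - ρ) := by rw [mul_pow, ← pow_mul]
  have h4 : (n : ℝ) ≤ W ^ 2 * Q :=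
    le_of_pow_le_pow_left₀ (by omega) (by positivity) h3
  have h5 : (n : ℝ) * N ≤ W ^ 2 * k * (M + N) := by
    have h6 : W ^ 2 * Q = W ^ 2 * k * (M + N) / N := by
      rw [hQ]; ring
    rw [h6, le_div_iff₀ hNp] at h4
    exact h4
  have h6 : (n : ℝ) * N ≤ 2 * W ^ 2 * k * M := by
    have h7 : W ^ 2 * k * N * 2 ≤ n * N := by
      have := mul_le_mul_of_nonneg_right hk hNp.le
      linarith
    linarith
  have h8 : (n : ℝ) ^ 2 ≤ 5616 ^ 2 * N := by
    have h9 : (n : ℝ) ≤ 5616 * (2 * d) := by exact_mod_cast hnd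
    have h10 : (N : ℝ) = (2 * d) ^ 2 := by rw [hN]; push_cast; ring
    rw [h10, ← mul_pow]
    gcongr
  calc (n : ℝ) ^ 3 = (n : ℝ) * (n : ℝ) ^ 2 := by ring
    _ ≤ (n : ℝ) * ((5616 : ℝ) ^ 2 * (N : ℝ)) := by gcongr
    _ = (5616 : ℝ) ^ 2 * ((n : ℝ) * N) := by ring
    _ ≤ (5616 : ℝ) ^ 2 * (2 * W ^ 2 * k * M) := by gcongr
    _ = _ := by ring

theorem eval_aeval' {σ τ : Type} (f : σ → MvPolynomial τ ℂ) (x : τ → ℂ) (p : MvPolynomial σ ℂ) :
    eval x (aeval f p) = eval (fun q => eval x (f q)) p := by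
  have : (eval x).comp (aeval f).toRingHom = eval (fun q => eval x (f q)) := by
    apply MvPolynomial.ringHom_ext
    · intro r
      simp
    · intro i
      simp
  exact congrArg (fun g => g p) this

/-- If the permanent is a function of `r` determinants of matrices with polynomial entries of
degree at most `k`, then the total number of entries is at least `c n ^ 3 / k`. -/
theorem final : ∃ c : ℝ, 0 < c ∧ ∀ (n k r : ℕ) (m : Fin r → ℕ)
    (A : ∀ i, Matrix (Fin (m i)) (Fin (m i)) (MvPolynomial (Fin n × Fin n) ℂ)),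
    (∀ i a b, (A i a b).totalDegree ≤ k) → 1 ≤ k → (k : ℝ) ≤ c * n → (r : ℝ) ≤ c * (n : ℝ) ^ 2 →
    (∀ X Y : Fin n × Fin n → ℂ, (∀ i, eval X (A i).det = eval Y (A i).det) →
      eval X (permPoly n) = eval Y (permPoly n)) →
    c * (n : ℝ) ^ 3 / k ≤ ∑ i, (m i : ℝ) ^ 2 := by
  have hW := one_le_W
  have hW2 : 1 ≤ W ^ 2 := one_le_pow₀ hW
  refine ⟨1 / (2 * W ^ 2 * 5616 ^ 2), by positivity, ?_⟩
  intro n k r m A hA hk1 hk hr hfun
  have hk1' : (1 : ℝ) ≤ k := by exact_mod_cast hk1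
  have hkp : (0 : ℝ) < k := by linarith
  have hkn : 2 * W ^ 2 * 5616 ^ 2 * (k : ℝ) ≤ n := by
    rw [div_mul_eq_mul_div, one_mul, le_div_iff₀ (by positivity)] at hk
    linarith
  have hnbig : (2 : ℝ) * 5616 ^ 2 ≤ n := by
    refine le_trans ?_ hkn
    have : (2 : ℝ) * 5616 ^ 2 * 1 ≤ 2 * 5616 ^ 2 * (W ^ 2 * k) := by
      gcongr
      nlinarith
    linarith
  have hn : 5616 ≤ n := by
    have : (5616 : ℝ) ≤ n := by
      refine le_trans ?_ hnbig
      norm_num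
    exact_mod_cast this
  obtain ⟨M, d, hM, hd, hMn, hnd⟩ := exists_params hn
  obtain ⟨f, hf, g, Z, hZc, hZ⟩ := exists_rich hM hd hMn
  have hNcard : Fintype.card (Vec M × Vec M) = (2 * d) ^ 2 := by
    rw [Fintype.card_prod, Fintype.card_fun, Fintype.card_fin, Fintype.card_fin, hM, sq]
  have hdet : ∀ i, ((A i).map (aeval f)).det = aeval f (A i).det := by
    intro i
    have := AlgHom.map_det (aeval f) (A i)
    rw [this]
    rfl
  obtain ⟨ρ, M', h1, h2, h3, h4, h5⟩ := fd_count (k := k) (D := n)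
    (fun i => (A i).map (aeval f)) (aeval f (permPoly n))
    (fun i a b => (totalDegree_aeval_le f hf _).trans (hA i a b))
    ((totalDegree_aeval_le f hf _).trans (permPoly_totalDegree_le n))
    (fun x y hxy => by
      rw [eval_aeval', eval_aeval']
      apply hfun
      intro i
      have := hxy i
      rw [hdet, eval_aeval', eval_aeval'] at this
      exact this) Z g hZ
  rw [Fintype.card_fin] at h1
  simp only [Fintype.card_fin] at h4
  rw [hNcard] at h3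
  rw [hNcard, hZc] at h5
  have hN1 : 1 ≤ (2 * d) ^ 2 := Nat.one_le_pow _ _ (by omega)
  have h6 := num1 hN1 hk1 (by omega : 1 ≤ n) h2 h3 h5
  have hρ : 2 * ρ ≤ (2 * d) ^ 2 := by
    have h7 : (2 : ℝ) * ρ ≤ (2 * d) ^ 2 := by
      have h8 : (ρ : ℝ) ≤ r := by exact_mod_cast h1
      have h9 : (n : ℝ) ≤ 5616 * (2 * d) := by exact_mod_cast hnd
      have h10 : (n : ℝ) ^ 2 ≤ 5616 ^ 2 * (2 * d) ^ 2 := by
        rw [← mul_pow]
        gcongr
      rw [div_mul_eq_mul_div, one_mul, le_div_iff₀ (by positivity)] at hr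
      have h11 : (ρ : ℝ) * (2 * W ^ 2 * 5616 ^ 2) ≤ 5616 ^ 2 * (2 * d) ^ 2 := by
        refine le_trans ?_ h10
        refine le_trans ?_ hr
        gcongr
      have h12 : (ρ : ℝ) * (2 * 1 * 5616 ^ 2) ≤ (ρ : ℝ) * (2 * W ^ 2 * 5616 ^ 2) := by
        gcongr
      have h13 : (5616 : ℝ) ^ 2 * (2 * ρ) ≤ 5616 ^ 2 * (2 * d) ^ 2 := by linarith
      exact le_of_mul_le_mul_left h13 (by norm_num)
    exact_mod_cast h7
  have hk2 : 2 * W ^ 2 * k ≤ n := by
    refine le_trans ?_ hkn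
    have : 2 * W ^ 2 * k * 1 ≤ 2 * W ^ 2 * (k : ℝ) * 5616 ^ 2 := by
      gcongr
      norm_num
    linarith
  have h7 := num_final (M := M') rfl (by omega) (by omega) hnd hρ hk2 (by
    push_cast at h6 ⊢
    exact h6)
  have h8 : (M' : ℝ) ≤ ∑ i, (m i : ℝ) ^ 2 := by exact_mod_cast h4
  rw [div_le_iff₀ hkp, div_mul_eq_mul_div, one_mul, div_le_iff₀ (by positivity)]
  calc (n : ℝ) ^ 3 ≤ 2 * W ^ 2 * 5616 ^ 2 * k * M' := h7
    _ ≤ 2 * W ^ 2 * 5616 ^ 2 * k * ∑ i, (m i : ℝ) ^ 2 := by gcongr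
    _ = _ := by ring

end Pool.Agent.Helper40.FD
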