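import Pool.Agent.Helper40.FD.Crit1
import Pool.Agent.Helper11.DC.Device

/-!
# Projections of the permanent with very many points with a common gradient
-/

set_option autoImplicit false
set_option linter.unusedSectionVars false

namespace Pool.Agent.Helper40.FD

open MvPolynomial Finset Pool.Agent.Helper24.SQ Pool.Agent.Helper63.PC Pool.Agent.Helper63.N3
  Helper16.N3

/-! ### degrees -/

theorem totalDegree_aeval_le {σ ι : Type*} {K : Type*} [CommRing K] [Nontrivial K]
    (f : σ → MvPolynomial ι K) (hf : ∀ q, (f q).totalDegree ≤ 1) (p : MvPolynomial σ K) :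
    (aeval f p).totalDegree ≤ p.totalDegree := by
  conv_lhs => rw [p.as_sum]
  rw [map_sum]
  refine totalDegree_finsetSum_le fun s hs => ?_
  rw [aeval_monomial, algebraMap_eq]
  refine (totalDegree_mul _ _).trans ?_
  rw [totalDegree_C, zero_add]
  refine le_trans ?_ (le_totalDegree hs)
  rw [Finsupp.prod, Finsupp.sum]
  refine (totalDegree_finsetProd _ _).trans (Finset.sum_le_sum fun i _ => ?_)
  refine (totalDegree_pow _ _).trans ?_
  calc s i * (f i).totalDegree ≤ s i * 1 := Nat.mul_le_mul_left _ (hf i)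
    _ = s i := mul_one _

section

variable {R Λ Cc : Type} [Fintype R] [Fintype Λ] [DecidableEq R] [DecidableEq Λ]

theorem F1_eq (d : ℕ) : F1 d Λ R = ∑ k : Λ, ∑ T ∈ powersetCard (d + 1) (univ : Finset R),
    ∏ x ∈ T, (X (k, x) : MvPolynomial (Λ × R) ℂ) := rfl

theorem grad_smul {ι : Type} (F : MvPolynomial ι ℂ) [Fintype ι] (c : ℂ) (hc : c ≠ 0) (g : ι → ℂ)
    (z : ι → ℂ) (h : (∀ v, eval z (pderiv v F) = g v) ∧ HessND F z) :
    (∀ v, eval z (pderiv v (C c * F)) = c * g v) ∧ HessND (C c * F) z := by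
  refine ⟨fun v => ?_, fun w hw => h.2 w fun v => ?_⟩
  · rw [pderiv_C_mul, map_mul, eval_C, h.1]
  · have h1 := hw v
    have h2 : ∀ v', eval z (pderiv v' (pderiv v (C c * F))) * w v' =
        c * (eval z (pderiv v' (pderiv v F)) * w v') := by
      intro v'
      rw [pderiv_C_mul, pderiv_C_mul, map_mul, eval_C]
      ring
    rw [Finset.sum_congr rfl fun v' _ => h2 v', ← Finset.mul_sum] at h1
    exact (mul_eq_zero.1 h1).resolve_left hc

theorem proj_grad {M d : ℕ} (co : R → Λ → Cc) (hco : ∀ k, Function.Injective fun r => co r k)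
    (hG : GoodProj M (d + 1) co) (g : Λ × R → ℂ) (Z : Finset (Λ × R → ℂ))
    (hZ : ∀ z ∈ Z, (∀ v, eval z (pderiv v (F1 d Λ R)) = g v) ∧ HessND (F1 d Λ R) z) :
    ∃ f : Fin M × Fin M → MvPolynomial (Λ × R) ℂ, (∀ q, (f q).totalDegree ≤ 1) ∧
      ∃ (g' : Λ × R → ℂ) (Z' : Finset (Λ × R → ℂ)), Z'.card = Z.card ∧
        ∀ z ∈ Z', (∀ v, eval z (pderiv v (aeval f (permPoly M))) = g' v) ∧
          HessND (aeval f (permPoly M)) z := by
  classical
  let V : R × Λ → MvPolynomial (Λ × R) ℂ := fun q => X (q.2, q.1)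
  let κ : Type := {S // S ∈ match' co (d + 1)}
  obtain ⟨ε, hε, H⟩ := grad_persist (F1 d Λ R) (fun q : κ => ∏ q ∈ q.1, V q) g Z hZ
  obtain ⟨e, c, w, sc, hc, hE, hw1, hw2⟩ := hG ε hε
  obtain ⟨Z₁, hZ₁, hcrit₁⟩ := H (fun q => if Const q.1 then 0 else w q.1 * ∏ q ∈ q.1, sc q) (by
      intro q
      split_ifs with h0
      · simpa using hε
      · exact hw2 q.1 q.2 h0)
  set f : Fin M × Fin M → MvPolynomial (Λ × R) ℂ := fun q =>
    (e q.1 q.2).elim (algebraMap ℂ _) (fun q => C (sc q) * V q) with hf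
  have hfd : ∀ q, (f q).totalDegree ≤ 1 := by
    intro q
    simp only [hf]
    rcases e q.1 q.2 with v | q'
    · simp only [Sum.elim_inl, algebraMap_eq, totalDegree_C, zero_le]
    · simp only [Sum.elim_inr]
      refine (totalDegree_mul _ _).trans ?_
      rw [totalDegree_C, zero_add]
      simp only [V]
      rw [totalDegree_X]
  have hF : aeval f (permPoly M) = C c * (F1 d Λ R + ∑ q : κ,
      (if Const q.1 then 0 else w q.1 * ∏ q ∈ q.1, sc q) • ∏ q ∈ q.1, V q) := by
    rw [aeval_permPoly]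
    refine (hE (MvPolynomial (Λ × R) ℂ) (fun q => C (sc q) * V q)).trans ?_
    rw [algebraMap_eq]
    congr 1
    have hs : (∑ q : κ, (if Const q.1 then 0 else w q.1 * ∏ q ∈ q.1, sc q) • ∏ q ∈ q.1, V q) =
        ∑ S ∈ match' co (d + 1),
          (if Const S then 0 else w S * ∏ q ∈ S, sc q) • ∏ q ∈ S, V q := by
      rw [← Finset.sum_coe_sort (match' co (d + 1)) (fun S =>
        (if Const S then 0 else w S * ∏ q ∈ S, sc q) • ∏ q ∈ S, V q)]
      refine Finset.sum_congr ?_ fun _ _ => rfl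
      ext q
      simp only [Finset.mem_univ]
    rw [hs]
    have h1 : F1 d Λ R = ∑ k : Λ, ∑ T ∈ powersetCard (d + 1) (univ : Finset R),
        ∏ x ∈ T, V (x, k) := rfl
    rw [h1, sum_const co hco (d + 1) (Nat.le_add_left 1 d), ← sum_add_distrib]
    refine sum_congr rfl fun S hS => ?_
    rw [prod_mul_distrib, ← map_prod C, ← mul_assoc, ← C_mul]
    split_ifs with h0
    · rw [hw1 S hS h0, C_1, one_mul, zero_smul, add_zero]
    · rw [zero_add, smul_eq_C_mul]
  refine ⟨f, hfd, fun v => c * g v, Z₁, hZ₁, fun z hz => ?_⟩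
  rw [hF]
  exact grad_smul _ c hc g z (hcrit₁ z hz)

theorem proj_mono' {M n : ℕ} (hn : M ≤ n) {ι : Type} (f : Fin M × Fin M → MvPolynomial ι ℂ)
    (hf : ∀ q, (f q).totalDegree ≤ 1) :
    ∃ g : Fin n × Fin n → MvPolynomial ι ℂ, (∀ q, (g q).totalDegree ≤ 1) ∧
      aeval g (permPoly n) = aeval f (permPoly M) := by
  obtain ⟨φ, hφ, hφ'⟩ := exists_proj_perm hn
  refine ⟨fun q => aeval f (φ q), fun q => (totalDegree_aeval_le f hf _).trans (hφ q), ?_⟩
  rw [← hφ', ← AlgHom.comp_apply]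
  congr 1
  ext q
  simp

end

/-- The labels. -/
abbrev Vec (M : ℕ) : Type := Fin 3 → Fin M

/-- Projections of the permanent with very many points with a common gradient. -/
theorem exists_rich {M n d : ℕ} (hM : M ^ 3 = 2 * d) (hd : 2 ≤ d) (hn : 702 * M ^ 3 ≤ n) :
    ∃ f : Fin n × Fin n → MvPolynomial (Vec M × Vec M) ℂ, (∀ q, (f q).totalDegree ≤ 1) ∧
      ∃ (g : Vec M × Vec M → ℂ) (Z : Finset (Vec M × Vec M → ℂ)),
        Z.card = d.factorial ^ (2 * (2 * d)) ∧
        ∀ z ∈ Z, (∀ v, eval z (pderiv v (aeval f (permPoly n))) = g v) ∧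
          HessND (aeval f (permPoly n)) z := by
  classical
  have hM1 : 1 ≤ M := by
    rcases Nat.eq_zero_or_pos M with rfl | h
    · simp at hM
      omega
    · exact h
  have hc : Fintype.card (Vec M) = 2 * d := by
    rw [Fintype.card_fun, Fintype.card_fin, Fintype.card_fin, hM]
  obtain ⟨P, hP, hE⟩ := Pool.Agent.Helper11.DC.device (M := M) (s := d + 1) hM1 (by omega)
  have hG := goodProj_of_expProj (vco 3 M) (fun k i => ((k i : Fin M) : ℕ)) (by
      intro k k' hk
      funext i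
      exact Fin.ext (congrFun hk i)) (Nat.le_add_left 1 d) hE
  obtain ⟨Z, hZ, hcard⟩ := exists_grad1 (Z := Vec M) (J := Vec M) hc hd
  obtain ⟨f, hf, g', Z', hZ', hcrit⟩ := proj_grad (vco 3 M) (vco_inj 3 M) hG
    (fun _ => (-1) ^ (d + 1)) Z hZ
  obtain ⟨φ, hφ, hφ'⟩ := proj_mono' (hP.trans hn) f hf
  refine ⟨φ, hφ, g', Z', ?_, ?_⟩
  · rw [hZ', hcard, hc]
  · rw [hφ']
    exact hcrit

end Pool.Agent.Helper40.FD
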