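import Pool.Agent.Helper40.FD.BezG

/-!
# The system of equations for the critical points of a function of determinants
-/

set_option autoImplicit false
set_option linter.unusedSectionVars false

namespace Pool.Agent.Helper40.FD

open MvPolynomial Finset Bez Matrix

/-! ### directional derivatives at a point -/

section dd

variable {K : Type*} [Field K] {σ : Type*} [Fintype σ] [DecidableEq σ]

/-- derivative of a polynomial at the point `q` in the direction `V` -/
noncomputable def dd (q V : σ → K) : MvPolynomial σ K →ₗ[K] K where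
  toFun f := ∑ j, eval q (pderiv j f) * V j
  map_add' f g := by
    simp [add_mul, Finset.sum_add_distrib]
  map_smul' c f := by
    simp only [RingHom.id_apply, smul_eq_mul, Finset.mul_sum]
    refine Finset.sum_congr rfl fun j _ => ?_
    rw [Derivation.map_smul, smul_eval]
    ring

theorem dd_apply (q V : σ → K) (f : MvPolynomial σ K) :
    dd q V f = ∑ j, eval q (pderiv j f) * V j := rfl

theorem dd_mul (q V : σ → K) (f g : MvPolynomial σ K) :
    dd q V (f * g) = dd q V f * eval q g + eval q f * dd q V g := by
  simp only [dd_apply, Derivation.leibniz, smul_eq_mul, map_add, map_mul, add_mul,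
    Finset.sum_add_distrib, Finset.sum_mul, Finset.mul_sum]
  rw [add_comm]
  congr 1
  · exact Finset.sum_congr rfl fun j _ => by ring
  · exact Finset.sum_congr rfl fun j _ => by ring

theorem dd_C (q V : σ → K) (c : K) : dd q V (C c) = 0 := by
  simp [dd_apply]

theorem dd_X (q V : σ → K) (i : σ) : dd q V (X i) = V i := by
  rw [dd_apply, Finset.sum_eq_single i]
  · simp
  · intro b _ hb
    rw [pderiv_X_of_ne hb.symm, map_zero, zero_mul]
  · simp

theorem dd_rename {τ : Type*} [Fintype τ] [DecidableEq τ] (e : σ → τ) (q V : τ → K)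
    (f : MvPolynomial σ K) : dd q V (rename e f) = dd (q ∘ e) (V ∘ e) f := by
  induction f using MvPolynomial.induction_on with
  | C a => rw [rename_C, dd_C, dd_C]
  | add f g hf hg => rw [map_add, map_add, map_add, hf, hg]
  | mul_X f i hf =>
    rw [map_mul, rename_X, dd_mul, dd_mul, hf, dd_X, dd_X, eval_rename, eval_X, eval_X]
    rfl

theorem dd_sub (q V : σ → K) (f g : MvPolynomial σ K) :
    dd q V (f - g) = dd q V f - dd q V g := map_sub _ _ _

theorem dd_zero_right (q : σ → K) (f : MvPolynomial σ K) : dd q 0 f = 0 := by
  simp [dd_apply]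

variable {μ : Type*} [Fintype μ] [DecidableEq μ]

theorem map_dd_mul (q V : σ → K) (M N : Matrix μ μ (MvPolynomial σ K)) :
    (M * N).map (dd q V) = M.map (dd q V) * N.map (eval q) + M.map (eval q) * N.map (dd q V) := by
  ext i j
  simp only [Matrix.map_apply, Matrix.mul_apply, Matrix.add_apply, map_sum, dd_mul,
    Finset.sum_add_distrib]

end dd

/-! ### Jacobi's formula -/

section jacobi

variable {R A : Type*} [CommRing R] [CommRing A] [Algebra R A] (D : Derivation R A A)

theorem der_prod {ι : Type*} [DecidableEq ι] (s : Finset ι) (f : ι → A) :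
    D (∏ i ∈ s, f i) = ∑ j ∈ s, (∏ i ∈ s.erase j, f i) * D (f j) := by
  induction s using Finset.induction_on with
  | empty => simp
  | insert a s ha ih =>
    rw [Finset.prod_insert ha, Derivation.leibniz, ih, Finset.sum_insert ha,
      Finset.erase_insert ha, smul_eq_mul, smul_eq_mul, add_comm, Finset.mul_sum]
    congr 1
    refine Finset.sum_congr rfl fun j hj => ?_
    have hne : a ≠ j := fun h => ha (h ▸ hj)
    rw [Finset.erase_insert_of_ne hne, Finset.prod_insert (fun h => ha (Finset.mem_of_mem_erase h))]
    ring

theorem der_det {μ : Type*} [Fintype μ] [DecidableEq μ] (M : Matrix μ μ A) :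
    D M.det = (M.adjugate * M.map D).trace := by
  have h1 : D M.det = ∑ j, (M.updateCol j (fun i => D (M i j))).det := by
    simp only [det_apply, map_sum]
    rw [Finset.sum_comm]
    refine Finset.sum_congr rfl fun σ _ => ?_
    have h2 : ∀ (z : ℤˣ) (q : A), D (z • q) = z • D q := by
      intro z q
      rw [Units.smul_def, Units.smul_def, Derivation.map_smul_of_tower]
    rw [h2, der_prod, Finset.smul_sum]
    refine Finset.sum_congr rfl fun j _ => ?_
    congr 1
    rw [← Finset.mul_prod_erase univ _ (Finset.mem_univ j), mul_comm]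
    congr 1
    · simp
    · refine Finset.prod_congr rfl fun i hi => ?_
      rw [updateCol_ne (Finset.ne_of_mem_erase hi)]
  rw [h1, trace]
  refine Finset.sum_congr rfl fun j _ => ?_
  rw [← cramer_apply, cramer_eq_adjugate_mulVec]
  rfl

end jacobi

/-! ### first order identities at a point where the matrix is invertible -/

section local_id

variable {K : Type*} [Field K] {σ : Type*} [Fintype σ] [DecidableEq σ]
  {μ : Type*} [Fintype μ] [DecidableEq μ]

theorem det_pderiv_eval (A : Matrix μ μ (MvPolynomial σ K)) (p : σ → K) (Z : Matrix μ μ K)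
    (hZ : A.map (eval p) * Z = 1) (v : σ) :
    eval p (pderiv v A.det) = eval p A.det * (Z * (A.map (pderiv v)).map (eval p)).trace := by
  have hdet : eval p A.det = (A.map (eval p)).det := RingHom.map_det (eval p) A
  have hadj : A.adjugate.map (eval p) = (A.map (eval p)).adjugate :=
    RingHom.map_adjugate (eval p) A
  have h1 : (A.map (eval p)).adjugate = (A.map (eval p)).det • Z := by
    have := congrArg (fun M => (A.map (eval p)).adjugate * M) hZ
    rw [← Matrix.mul_assoc, adjugate_mul, Matrix.mul_one, Matrix.smul_mul, Matrix.one_mul] at this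
    exact this.symm
  rw [der_det]
  have h2 : eval p ((A.adjugate * A.map (pderiv v)).trace) =
      (A.adjugate.map (eval p) * (A.map (pderiv v)).map (eval p)).trace := by
    rw [← Matrix.map_mul, Matrix.trace, Matrix.trace, map_sum]
    rfl
  rw [h2, hadj, h1, hdet, Matrix.smul_mul, Matrix.trace_smul, smul_eq_mul]

theorem det_dd (A : Matrix μ μ (MvPolynomial σ K)) (p x : σ → K) (Z Z' : Matrix μ μ K)
    (hZ : A.map (eval p) * Z = 1) (hZ' : A.map (dd p x) * Z + A.map (eval p) * Z' = 0) (v : σ) :
    dd p x (pderiv v A.det) = dd p x A.det * (Z * (A.map (pderiv v)).map (eval p)).trace +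
      eval p A.det * ((Z' * (A.map (pderiv v)).map (eval p)).trace +
        (Z * (A.map (pderiv v)).map (dd p x)).trace) := by
  have hZl : Z * A.map (eval p) = 1 := mul_eq_one_comm.1 hZ
  have hdet : eval p A.det = (A.map (eval p)).det := RingHom.map_det (eval p) A
  have hadj : A.adjugate.map (eval p) = (A.map (eval p)).adjugate :=
    RingHom.map_adjugate (eval p) A
  have h1 : (A.map (eval p)).adjugate = (A.map (eval p)).det • Z := by
    have := congrArg (fun M => (A.map (eval p)).adjugate * M) hZ
    rw [← Matrix.mul_assoc, adjugate_mul, Matrix.mul_one, Matrix.smul_mul, Matrix.one_mul] at this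
    exact this.symm
  -- the derivative of the adjugate
  have h3 : A.adjugate.map (dd p x) * A.map (eval p) + A.adjugate.map (eval p) * A.map (dd p x) =
      dd p x A.det • 1 := by
    rw [← map_dd_mul, adjugate_mul]
    ext i j
    simp only [Matrix.map_apply, Matrix.smul_apply, smul_eq_mul, Matrix.one_apply]
    split_ifs with h
    · rw [mul_one, mul_one]
    · rw [mul_zero, mul_zero, map_zero]
  have h4 : Z' = -(Z * A.map (dd p x) * Z) := by
    have := congrArg (fun M => Z * M) hZ'
    rw [Matrix.mul_add, ← Matrix.mul_assoc, ← Matrix.mul_assoc, hZl, Matrix.one_mul,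
      Matrix.mul_zero] at this
    exact eq_neg_of_add_eq_zero_right this
  have h5 : A.adjugate.map (dd p x) = dd p x A.det • Z + eval p A.det • Z' := by
    have h6 := congrArg (fun M => M * Z) h3
    rw [Matrix.add_mul, Matrix.mul_assoc, hZ, Matrix.mul_one, Matrix.smul_mul, Matrix.one_mul,
      hadj, h1, Matrix.smul_mul, Matrix.smul_mul, ← hdet] at h6
    rw [h4, smul_neg, ← h6]
    abel
  rw [der_det]
  have h2 : dd p x ((A.adjugate * A.map (pderiv v)).trace) =
      ((A.adjugate * A.map (pderiv v)).map (dd p x)).trace := by
    rw [Matrix.trace, Matrix.trace, map_sum]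
    rfl
  rw [h2, map_dd_mul, h5, hadj, h1, ← hdet, Matrix.trace_add, Matrix.add_mul, Matrix.trace_add,
    Matrix.smul_mul, Matrix.smul_mul, Matrix.smul_mul, Matrix.trace_smul, Matrix.trace_smul,
    Matrix.trace_smul, smul_eq_mul, smul_eq_mul, smul_eq_mul]
  ring

end local_id

end Pool.Agent.Helper40.FD
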